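import Mathlib

/-!
# Copies of a graph in degenerate graphs

If `H` has only one vertex of degree at most `k`, a `k`-degenerate graph with `n` vertices has at
most `C n` copies of `H`.
-/

set_option autoImplicit false

namespace Pool.Agent.N427.Degen

open SimpleGraph

/-- `k`-degenerate graphs -/
def Degenerate {V : Type} (k : ℕ) (G : SimpleGraph V) : Prop :=
  ∀ S : Finset V, S.Nonempty → ∃ v ∈ S, {w : V | w ∈ S ∧ G.Adj v w}.ncard ≤ k

theorem ranking_aux {V : Type} [Finite V] [DecidableEq V] {k : ℕ} {G : SimpleGraph V}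
    (hG : Degenerate k G) : ∀ (m : ℕ) (S : Finset V), S.card = m → ∃ r : V → ℕ,
      Set.InjOn r S ∧ ∀ v ∈ S, {w : V | w ∈ S ∧ G.Adj v w ∧ r v < r w}.ncard ≤ k := by
  intro m
  induction m with
  | zero =>
    intro S hS
    rw [Finset.card_eq_zero] at hS
    subst hS
    exact ⟨fun _ => 0, by simp, by simp⟩
  | succ m ih =>
    intro S hS
    have hne : S.Nonempty := by
      rw [← Finset.card_pos]
      omega
    obtain ⟨v, hv, hvk⟩ := hG S hne
    obtain ⟨r, hr1, hr2⟩ := ih (S.erase v) (by rw [Finset.card_erase_of_mem hv]; omega)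
    refine ⟨fun w => if w = v then 0 else r w + 1, ?_, ?_⟩
    · intro x hx y hy hxy
      by_cases h1 : x = v <;> by_cases h2 : y = v
      · rw [h1, h2]
      · simp [h1, h2] at hxy
      · simp [h1, h2] at hxy
      · simp only [h1, h2, if_false, Nat.add_right_cancel_iff] at hxy
        apply hr1 _ _ hxy
        · simp only [Finset.coe_erase, Set.mem_sdiff, Set.mem_singleton_iff]
          exact ⟨hx, h1⟩
        · simp only [Finset.coe_erase, Set.mem_sdiff, Set.mem_singleton_iff]
          exact ⟨hy, h2⟩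
    · intro x hx
      by_cases h1 : x = v
      · subst h1
        refine le_trans (Set.ncard_le_ncard ?_ (Set.toFinite _)) hvk
        rintro w ⟨hw1, hw2, _⟩
        exact ⟨hw1, hw2⟩
      · refine le_trans (Set.ncard_le_ncard ?_ (Set.toFinite _))
          (hr2 x (Finset.mem_erase.2 ⟨h1, hx⟩))
        rintro w ⟨hw1, hw2, hw3⟩
        have h2 : w ≠ v := by
          rintro rfl
          simp at hw3
        simp only [h1, h2, if_false, add_lt_add_iff_right] at hw3
        exact ⟨Finset.mem_erase.2 ⟨h2, hw1⟩, hw2, hw3⟩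

/-- a degenerate graph has a ranking in which each vertex has few later neighbours -/
theorem ranking {V : Type} [Finite V] {k : ℕ} {G : SimpleGraph V}
    (hG : Degenerate k G) : ∃ r : V → ℕ, Function.Injective r ∧
      ∀ v, {w : V | G.Adj v w ∧ r v < r w}.ncard ≤ k := by
  classical
  have := Fintype.ofFinite V
  obtain ⟨r, hr1, hr2⟩ := ranking_aux hG _ Finset.univ rfl
  refine ⟨r, fun x y h => hr1 (by simp) (by simp) h, fun v => ?_⟩
  have := hr2 v (Finset.mem_univ v)
  simpa using this

/-- the number of copies of a graph with only one vertex of small degree -/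
theorem count {V : Type} [Fintype V] {k n : ℕ} (H : SimpleGraph V) (t : V)
    (ht : ∀ v, v ≠ t → k < (H.neighborSet v).ncard) (G : SimpleGraph (Fin n))
    (hG : Degenerate k G) :
    {φ : V ↪ Fin n | ∀ u v, H.Adj u v → G.Adj (φ u) (φ v)}.ncard ≤
      n * (Fintype.card V * (k + 1)) ^ Fintype.card V := by
  classical
  obtain ⟨r, hr1, hr2⟩ := ranking hG
  -- enumeration of the later neighbours
  have hι : ∀ v : Fin n, ∃ ι : Fin n → Fin (k + 1),
      Set.InjOn ι {w : Fin n | G.Adj v w ∧ r v < r w} := by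
    intro v
    have h1 : ({w : Fin n | G.Adj v w ∧ r v < r w}).encard ≤
        (Set.univ : Set (Fin (k + 1))).encard := by
      rw [← (Set.toFinite {w : Fin n | G.Adj v w ∧ r v < r w}).cast_ncard_eq,
        ← (Set.toFinite (Set.univ : Set (Fin (k + 1)))).cast_ncard_eq, Set.ncard_univ,
        Nat.card_eq_fintype_card, Fintype.card_fin]
      have := hr2 v
      exact_mod_cast (by omega : {w : Fin n | G.Adj v w ∧ r v < r w}.ncard ≤ k + 1)
    obtain ⟨f, _, hf⟩ := (Set.toFinite {w : Fin n | G.Adj v w ∧ r v < r w}).exists_injOn_of_encard_le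
      h1
    exact ⟨f, hf⟩
  choose ι hι using hι
  let E := {φ : V ↪ Fin n | ∀ u v, H.Adj u v → G.Adj (φ u) (φ v)}
  have hpar : ∀ φ ∈ E, ∀ v, v ≠ t → ∃ u, G.Adj (φ u) (φ v) ∧ r (φ u) < r (φ v) := by
    intro φ hφ v hv
    by_contra hno
    push Not at hno
    have h1 := ht v hv
    have h2 : (φ '' H.neighborSet v).ncard ≤ {w : Fin n | G.Adj (φ v) w ∧ r (φ v) < r w}.ncard := by
      apply Set.ncard_le_ncard _ (Set.toFinite _)
      rintro _ ⟨u, hu, rfl⟩
      have h3 : G.Adj (φ v) (φ u) := hφ v u hu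
      refine ⟨h3, ?_⟩
      refine lt_of_le_of_ne (hno u h3.symm) ?_
      intro h4
      exact h3.ne (hr1 h4)
    rw [Set.ncard_image_of_injective _ φ.injective] at h2
    have := hr2 (φ v)
    omega
  choose! p hp1 hp2 using hpar
  let Φ : (V ↪ Fin n) → Fin n × (V → V × Fin (k + 1)) :=
    fun φ => (φ t, fun v => (p φ v, ι (φ (p φ v)) (φ v)))
  have hinj : Set.InjOn Φ E := by
    intro φ hφ ψ hψ h
    have h1 : φ t = ψ t := congrArg Prod.fst h
    have h2 : ∀ v, (p φ v, ι (φ (p φ v)) (φ v)) = (p ψ v, ι (ψ (p ψ v)) (ψ v)) :=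
      fun v => congrFun (congrArg Prod.snd h) v
    have key : ∀ m, ∀ v, r (φ v) = m → φ v = ψ v := by
      intro m
      induction m using Nat.strong_induction_on with
      | _ m ih =>
        intro v hv
        by_cases hvt : v = t
        · rw [hvt]; exact h1
        · have h3 : p φ v = p ψ v := congrArg Prod.fst (h2 v)
          have h4 : ι (φ (p φ v)) (φ v) = ι (ψ (p ψ v)) (ψ v) := congrArg Prod.snd (h2 v)
          have h5 : φ (p φ v) = ψ (p φ v) := by
            apply ih (r (φ (p φ v))) _ _ rfl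
            rw [← hv]
            exact hp2 φ hφ v hvt
          rw [← h3, ← h5] at h4
          apply hι (φ (p φ v)) _ _ h4
          · exact ⟨hp1 φ hφ v hvt, hp2 φ hφ v hvt⟩
          · have h6 := hp1 ψ hψ v hvt
            have h7 := hp2 ψ hψ v hvt
            rw [← h3, ← h5] at h6 h7
            exact ⟨h6, h7⟩
    ext v
    rw [key _ v rfl]
  have h := Set.ncard_le_ncard_of_injOn (s := E) (t := Set.univ) Φ (fun _ _ => Set.mem_univ _)
    hinj (Set.toFinite _)
  refine h.trans (le_of_eq ?_)
  rw [Set.ncard_univ, Nat.card_eq_fintype_card, Fintype.card_prod, Fintype.card_fin,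
    Fintype.card_fun, Fintype.card_prod, Fintype.card_fin]

end Pool.Agent.N427.Degen
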