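import Mathlib

/-!
# Finite regular graphs of large degree without short cycles

For all `d` and `g` there is a finite graph all of whose vertices have degree `d` and which has no
cycle of length at most `g`: a Cayley graph of a group of permutations of a ball in the
`d`-regular tree.
-/

set_option autoImplicit false

namespace Pool.Agent.N427.Girth

open SimpleGraph

/-- reduced words of length at most `R` over the alphabet `Fin d` -/
def W (d R : ℕ) : Type := {w : List (Fin d) // w.length ≤ R ∧ w.IsChain (· ≠ ·)}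

instance (d R : ℕ) : Finite (W d R) := by
  have h : ({w : List (Fin d) | w.length ≤ R ∧ w.IsChain (· ≠ ·)}).Finite :=
    (List.finite_length_le (Fin d) R).subset (fun w hw => hw.1)
  exact h.to_subtype

/-- the list underlying the toggle -/
def togL {d : ℕ} (R : ℕ) (c : Fin d) (w : List (Fin d)) : List (Fin d) :=
  if w.head? = some c then w.tail else if w.length < R then c :: w else w

theorem togL_ok {d R : ℕ} (c : Fin d) (w : List (Fin d))
    (hw : w.length ≤ R ∧ w.IsChain (· ≠ ·)) :
    (togL R c w).length ≤ R ∧ (togL R c w).IsChain (· ≠ ·) := by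
  unfold togL
  split_ifs with h1 h2
  · refine ⟨?_, hw.2.tail⟩
    rw [List.length_tail]
    omega
  · refine ⟨by simpa using h2, ?_⟩
    rw [List.isChain_cons]
    refine ⟨?_, hw.2⟩
    intro y hy hcy
    apply h1
    rw [Option.mem_def] at hy
    rw [hy, hcy]
  · exact hw

theorem togL_togL {d R : ℕ} (c : Fin d) (w : List (Fin d))
    (hw : w.length ≤ R ∧ w.IsChain (· ≠ ·)) : togL R c (togL R c w) = w := by
  by_cases h1 : w.head? = some c
  · obtain ⟨w', rfl⟩ : ∃ w', w = c :: w' := by
      cases w with
      | nil => simp at h1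
      | cons a w' =>
        simp only [List.head?_cons, Option.some.injEq] at h1
        exact ⟨w', by rw [h1]⟩
    have e1 : togL R c (c :: w') = w' := by simp [togL]
    rw [e1]
    have h2 : ¬ w'.head? = some c := by
      have h3 := hw.2
      rw [List.isChain_cons] at h3
      intro h4
      exact h3.1 c h4 rfl
    have h5 : w'.length < R := by
      have := hw.1
      simp only [List.length_cons] at this
      omega
    simp [togL, h2, h5]
  · by_cases h2 : w.length < R
    · have e1 : togL R c w = c :: w := by simp [togL, h1, h2]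
      rw [e1]
      simp [togL]
    · have e1 : togL R c w = w := by simp [togL, h1, h2]
      rw [e1, e1]

/-- the toggle -/
def tog {d R : ℕ} (c : Fin d) : Equiv.Perm (W d R) :=
  Function.Involutive.toPerm (fun w => ⟨togL R c w.1, togL_ok c w.1 w.2⟩)
    (fun w => Subtype.ext (togL_togL c w.1 w.2))

theorem tog_mul_tog {d R : ℕ} (c : Fin d) : (tog c : Equiv.Perm (W d R)) * tog c = 1 := by
  apply Equiv.ext
  intro w
  exact Subtype.ext (togL_togL c w.1 w.2)

/-- the root -/
def root (d R : ℕ) : W d R := ⟨[], by simp⟩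

theorem tog_val {d R : ℕ} (c : Fin d) (w : W d R) : (tog c w).1 = togL R c w.1 := rfl

theorem tog_root {d R : ℕ} (hR : 0 < R) (c : Fin d) : (tog c (root d R)).1 = [c] := by
  rw [tog_val]
  simp [togL, root, hR]

/-- the Cayley graph -/
def cay (d R : ℕ) (hR : 0 < R) : SimpleGraph (Equiv.Perm (W d R)) where
  Adj σ τ := ∃ c : Fin d, τ = tog c * σ
  symm := ⟨by
    rintro σ τ ⟨c, rfl⟩
    exact ⟨c, by rw [← mul_assoc, tog_mul_tog, one_mul]⟩⟩
  loopless := ⟨by
    rintro σ ⟨c, h⟩
    have h1 : tog c = (1 : Equiv.Perm (W d R)) := by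
      have := congrArg (· * σ⁻¹) h
      simpa using this.symm
    have h2 := tog_root hR c
    rw [h1] at h2
    have h3 : (root d R).1 = [c] := h2
    simp [root] at h3⟩

theorem tog_inj {d R : ℕ} (hR : 0 < R) {c c' : Fin d}
    (h : (tog c : Equiv.Perm (W d R)) = tog c') : c = c' := by
  have h1 := tog_root hR c
  rw [h, tog_root hR c'] at h1
  simpa using h1.symm

theorem degree_cay (d R : ℕ) (hR : 0 < R) (σ : Equiv.Perm (W d R)) :
    ((cay d R hR).neighborSet σ).ncard = d := by
  have h : (cay d R hR).neighborSet σ = Set.range (fun c : Fin d => tog c * σ) := by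
    ext τ
    simp only [SimpleGraph.mem_neighborSet, Set.mem_range]
    constructor
    · rintro ⟨c, rfl⟩
      exact ⟨c, rfl⟩
    · rintro ⟨c, rfl⟩
      exact ⟨c, rfl⟩
  rw [h, ← Set.image_univ, Set.ncard_image_of_injective]
  · simp [Set.ncard_univ]
  · intro c c' hcc
    exact tog_inj hR (mul_right_cancel hcc)

/-- non-backtracking walks -/
theorem walk_word {d R : ℕ} (hR : 0 < R) (x : ℕ → Equiv.Perm (W d R))
    (h1 : ∀ i, (cay d R hR).Adj (x i) (x (i + 1))) (h2 : ∀ i, x (i + 2) ≠ x i) (k : ℕ)
    (hk : k ≤ R) : ((x k * (x 0)⁻¹) (root d R)).1.length = k := by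
  choose c hc using h1
  have hcc : ∀ i, c (i + 1) ≠ c i := by
    intro i h
    apply h2 i
    rw [hc (i + 1), hc i, h, ← mul_assoc, tog_mul_tog, one_mul]
  have key : ∀ k, k ≤ R → ((x k * (x 0)⁻¹) (root d R)).1.length = k ∧
      ∀ i, k = i + 1 → ((x k * (x 0)⁻¹) (root d R)).1.head? = some (c i) := by
    intro k
    induction k with
    | zero =>
      intro _
      refine ⟨?_, fun i hi => absurd hi (by omega)⟩
      rw [mul_inv_cancel]
      rfl
    | succ k ih =>
      intro hk
      obtain ⟨ih1, ih2⟩ := ih (by omega)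
      have e : ((x (k + 1) * (x 0)⁻¹) (root d R)).1 =
          togL R (c k) ((x k * (x 0)⁻¹) (root d R)).1 := by
        rw [hc k, mul_assoc, Equiv.Perm.mul_apply, tog_val]
      have h3 : ¬ ((x k * (x 0)⁻¹) (root d R)).1.head? = some (c k) := by
        rcases Nat.eq_zero_or_pos k with h0 | h0
        · subst h0
          intro h4
          rw [List.eq_nil_of_length_eq_zero ih1] at h4
          simp at h4
        · obtain ⟨j, rfl⟩ : ∃ j, k = j + 1 := ⟨k - 1, by omega⟩
          rw [ih2 j rfl]
          intro h4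
          exact hcc j (Option.some.inj h4).symm
      have h4 : togL R (c k) ((x k * (x 0)⁻¹) (root d R)).1 =
          c k :: ((x k * (x 0)⁻¹) (root d R)).1 := by
        unfold togL
        rw [if_neg h3, if_pos (by omega)]
      rw [e, h4]
      refine ⟨by rw [List.length_cons, ih1], ?_⟩
      intro i hi
      have : i = k := by omega
      subst this
      rfl
  exact (key k hk).1

theorem cay_free (d R : ℕ) (hR : 0 < R) (k : ℕ) (hk3 : 3 ≤ k) (hk : k ≤ R) :
    (cycleGraph k).Free (cay d R hR) := by
  rintro ⟨f⟩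
  have hk0 : NeZero k := ⟨by omega⟩
  obtain ⟨m, rfl⟩ : ∃ m, k = m + 2 := ⟨k - 2, by omega⟩
  let x : ℕ → Equiv.Perm (W d R) := fun i => f (Fin.ofNat (m + 2) i)
  have hx : ∀ i, x i = f (Fin.ofNat (m + 2) i) := fun _ => rfl
  have h1 : ∀ i, (cay d R hR).Adj (x i) (x (i + 1)) := by
    intro i
    apply f.toHom.map_adj
    rw [cycleGraph_adj]
    right
    apply Fin.ext
    rw [Fin.sub_def]
    show (m + 2 - i % (m + 2) + (i + 1) % (m + 2)) % (m + 2) = 1 % (m + 2)
    have h5 : i % (m + 2) < m + 2 := Nat.mod_lt _ (by omega)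
    have h6 : (i + 1) % (m + 2) = (i % (m + 2) + 1) % (m + 2) := by
      rw [Nat.mod_add_mod]
    rw [h6]
    rcases Nat.lt_or_ge (i % (m + 2) + 1) (m + 2) with h7 | h7
    · rw [Nat.mod_eq_of_lt h7]
      have h8 : m + 2 - i % (m + 2) + (i % (m + 2) + 1) = 1 + (m + 2) := by omega
      rw [h8, Nat.add_mod_right]
    · have h8 : i % (m + 2) + 1 = m + 2 := by omega
      rw [h8, Nat.mod_self]
      congr 1
      omega
  have h2 : ∀ i, x (i + 2) ≠ x i := by
    intro i h
    have h3 := f.injective h
    have h4 : (i + 2) % (m + 2) = i % (m + 2) := congrArg Fin.val h3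
    have h5 : i % (m + 2) < m + 2 := Nat.mod_lt _ (by omega)
    have h6 : (i + 2) % (m + 2) = (i % (m + 2) + 2) % (m + 2) := by
      rw [Nat.mod_add_mod]
    rw [h6] at h4
    rcases Nat.lt_or_ge (i % (m + 2) + 2) (m + 2) with h7 | h7
    · rw [Nat.mod_eq_of_lt h7] at h4
      omega
    · have h8 : i % (m + 2) + 2 = (i % (m + 2) - m) + (m + 2) := by omega
      rw [h8, Nat.add_mod_right, Nat.mod_eq_of_lt (by omega)] at h4
      omega
  have h3 := walk_word hR x h1 h2 (m + 2) hk
  have h4 : x (m + 2) = x 0 := by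
    simp only [hx]
    congr 1
    apply Fin.ext
    simp [Fin.ofNat]
  rw [h4, mul_inv_cancel] at h3
  have h5 : (root d R).1.length = m + 2 := h3
  simp [root] at h5

/-- **Regular graphs of large girth.** -/
theorem exists_graph (d g : ℕ) : ∃ (t : ℕ) (T : SimpleGraph (Fin t)), 0 < t ∧
    (∀ v, (T.neighborSet v).ncard = d) ∧ ∀ k, 3 ≤ k → k ≤ g → (cycleGraph k).Free T := by
  classical
  let R := g + 1
  have hR : 0 < R := by omega
  have := Fintype.ofFinite (Equiv.Perm (W d R))
  let V := Equiv.Perm (W d R)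
  let e : V ≃ Fin (Fintype.card V) := Fintype.equivFin V
  let T : SimpleGraph (Fin (Fintype.card V)) := (cay d R hR).comap e.symm
  let φ : T ≃g cay d R hR := Iso.comap e.symm (cay d R hR)
  refine ⟨Fintype.card V, T, Fintype.card_pos, ?_, ?_⟩
  · intro v
    rw [← degree_cay d R hR (φ v)]
    rw [← Set.ncard_image_of_injective _ φ.injective]
    congr 1
    ext τ
    simp only [Set.mem_image, SimpleGraph.mem_neighborSet]
    constructor
    · rintro ⟨u, hu, rfl⟩
      exact φ.map_adj_iff.2 hu
    · intro h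
      refine ⟨φ.symm τ, ?_, by simp⟩
      rw [← φ.map_adj_iff]
      simpa using h
  · intro k h3 hk h
    exact cay_free d R hR k h3 (by omega) (h.trans ⟨φ.toCopy⟩)

end Pool.Agent.N427.Girth
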