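import Mathlib
import Pool.Agent.N427.Girth

/-!
# A family of graphs for which spanning free subgraphs of cliques have small minimum degree
-/

set_option autoImplicit false

namespace Pool.Agent.N427.FamilyCE

open SimpleGraph

/-- a finite nonempty graph whose degrees are all at least two has a cycle -/
theorem not_acyclic {V : Type} [Finite V] [Nonempty V] (G : SimpleGraph V)
    (h : ∀ v, 2 ≤ (G.neighborSet v).ncard) : ¬ G.IsAcyclic := by
  classical
  intro hG
  have := Fintype.ofFinite V
  obtain ⟨F, hF1, _, hF3⟩ := connected_top.exists_isTree_le_of_le_of_isAcyclic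
    (le_top : G ≤ (⊤ : SimpleGraph V)) hG
  have h1 := hF3.card_edgeFinset
  have h2 : G.edgeFinset.card ≤ F.edgeFinset.card := Finset.card_le_card (edgeFinset_mono hF1)
  have h3 := G.sum_degrees_eq_twice_card_edges
  have h4 : ∑ v : V, 2 ≤ ∑ v, G.degree v := by
    apply Finset.sum_le_sum
    intro v _
    have := h v
    rwa [← Set.coe_toFinset (G.neighborSet v), Set.ncard_coe_finset] at this
  rw [h3, Finset.sum_const, Finset.card_univ, smul_eq_mul] at h4
  omega

/-- a block of a graph in which all degrees within the block are at least two -/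
theorem exists_short_cycle {m k : ℕ} (H : SimpleGraph (Fin m × Fin (k + 1)))
    (hH : ∀ a b, H.Adj a b → a.1 = b.1) (hd : ∀ v, 2 ≤ (H.neighborSet v).ncard) (hm : 0 < m) :
    ∃ l, 3 ≤ l ∧ l ≤ k + 1 ∧ (cycleGraph l).IsContained H := by
  let i : Fin m := ⟨0, hm⟩
  let B : SimpleGraph (Fin (k + 1)) := H.comap (fun x => (i, x))
  have hinj : Function.Injective (fun x : Fin (k + 1) => (i, x)) := by
    intro x y hxy
    simpa using hxy
  have hB : ¬ B.IsAcyclic := by
    apply not_acyclic
    intro v
    rw [← Set.ncard_image_of_injective _ hinj]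
    refine (hd (i, v)).trans (le_of_eq ?_)
    congr 1
    ext w
    simp only [SimpleGraph.mem_neighborSet, Set.mem_image]
    constructor
    · intro hw
      refine ⟨w.2, ?_, ?_⟩
      · show H.Adj (i, v) (i, w.2)
        have : i = w.1 := hH _ _ hw
        rw [this] at hw ⊢
        exact hw
      · have : i = w.1 := hH _ _ hw
        rw [this]
    · rintro ⟨x, hx, rfl⟩
      exact hx
  rw [isAcyclic_iff_free_cycleGraph] at hB
  push Not at hB
  obtain ⟨l, hl, hc⟩ := hB
  have hc' : (cycleGraph l).IsContained B := hc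
  refine ⟨l, hl, ?_, ?_⟩
  · obtain ⟨f⟩ := hc'
    have := Fintype.card_le_of_injective f f.injective
    simpa using this
  · refine hc'.trans ⟨⟨⟨fun x => (i, x), fun {a b} h => h⟩, hinj⟩⟩

/-- `m` disjoint cliques with `k + 1` vertices -/
def blocks (m k : ℕ) : SimpleGraph (Fin m × Fin (k + 1)) where
  Adj a b := a.1 = b.1 ∧ a.2 ≠ b.2
  symm := ⟨fun _ _ h => ⟨h.1.symm, h.2.symm⟩⟩
  loopless := ⟨fun _ h => h.2 rfl⟩

theorem degree_blocks (m k : ℕ) (v : Fin m × Fin (k + 1)) :
    ((blocks m k).neighborSet v).ncard = k := by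
  have hinj : Function.Injective (fun x : Fin (k + 1) => (v.1, x)) := by
    intro x y hxy
    simpa using hxy
  have h : (blocks m k).neighborSet v = (fun x : Fin (k + 1) => (v.1, x)) '' {x | x ≠ v.2} := by
    ext w
    simp only [SimpleGraph.mem_neighborSet, Set.mem_image, Set.mem_ofPred_eq]
    constructor
    · rintro ⟨h1, h2⟩
      exact ⟨w.2, h2.symm, by rw [h1]⟩
    · rintro ⟨x, hx, rfl⟩
      exact ⟨rfl, hx.symm⟩
  rw [h, Set.ncard_image_of_injective _ hinj]
  have h2 : {x : Fin (k + 1) | x ≠ v.2} = ((Finset.univ.erase v.2 : Finset (Fin (k + 1))) : Set _) := by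
    ext x
    simp
  rw [h2, Set.ncard_coe_finset, Finset.card_erase_of_mem (Finset.mem_univ _), Finset.card_univ,
    Fintype.card_fin]
  omega

/-- the same graph on `Fin (m * (k + 1))` -/
def blocksFin (m k : ℕ) : SimpleGraph (Fin (m * (k + 1))) :=
  (blocks m k).comap finProdFinEquiv.symm

theorem ncard_comap {V W : Type} (e : V ≃ W) (G : SimpleGraph W) (v : V) :
    ((G.comap e).neighborSet v).ncard = (G.neighborSet (e v)).ncard := by
  rw [← Set.ncard_image_of_injective _ e.injective]
  congr 1
  ext w
  simp only [Set.mem_image, SimpleGraph.mem_neighborSet, SimpleGraph.comap_adj]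
  constructor
  · rintro ⟨u, hu, rfl⟩
    exact hu
  · intro h
    exact ⟨e.symm w, by simpa using h, by simp⟩

/-- the number of edges of a regular graph -/
theorem card_edges {t d : ℕ} (T : SimpleGraph (Fin t)) (h : ∀ v, (T.neighborSet v).ncard = d) :
    2 * T.edgeSet.ncard = d * t := by
  classical
  have h3 := T.sum_degrees_eq_twice_card_edges
  have h4 : ∑ v, T.degree v = ∑ v : Fin t, d := by
    apply Finset.sum_congr rfl
    intro v _
    have := h v
    rwa [← Set.coe_toFinset (T.neighborSet v), Set.ncard_coe_finset] at this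
  rw [h3, Finset.sum_const, Finset.card_univ, smul_eq_mul, Fintype.card_fin] at h4
  rw [mul_comm d t, ← h4, ← coe_edgeFinset, Set.ncard_coe_finset]

/-- **The counterexample.** -/
theorem main : ∃ F : Set (Σ k : ℕ, SimpleGraph (Fin k)),
    (∀ p ∈ F, ¬ p.2.IsAcyclic) ∧ (∃ p ∈ F, p.2.Colorable 2) ∧
    ∀ c : ℝ, 0 < c → ∃ Δ : ℕ, 1 ≤ Δ ∧ ∃ (n : ℕ) (G : SimpleGraph (Fin n)), 0 < n ∧
      (∀ v, (G.neighborSet v).ncard = Δ) ∧ ∃ T : SimpleGraph (Fin Δ),
        (∀ p ∈ F, ¬ p.2.IsContained T) ∧
        ∀ H : SimpleGraph (Fin n), H ≤ G → (∀ p ∈ F, ¬ p.2.IsContained H) →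
          ∃ v, ((H.neighborSet v).ncard : ℝ) < c * (T.edgeSet.ncard : ℝ) * (Δ : ℝ) / (Δ : ℝ) ^ 2 := by
  classical
  -- the graphs of large girth
  have hex := fun D : ℕ => Girth.exists_graph (D + 1) (D + 4)
  choose t T ht hT hfree using hex
  let F : Set (Σ k : ℕ, SimpleGraph (Fin k)) :=
    {p | ¬ p.2.IsAcyclic ∧ ∀ D, ¬ p.2.IsContained (T D)}
  refine ⟨F, fun p hp => hp.1, ?_, ?_⟩
  · refine ⟨⟨4, cycleGraph 4⟩, ⟨?_, ?_⟩, ?_⟩
    · rw [isAcyclic_iff_free_cycleGraph]
      intro h
      exact h 4 (by norm_num) (IsContained.refl _)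
    · intro D hD
      exact hfree D 4 (by norm_num) (by omega) hD
    · exact ⟨Coloring.mk (fun v : Fin 4 => if v = 0 ∨ v = 2 then (0 : Fin 2) else 1) (by decide)⟩
  · intro c hc
    obtain ⟨D, hD⟩ := exists_nat_gt (4 / c)
    have hD0 : (0 : ℝ) < 4 / c := by positivity
    have hDpos : (0 : ℝ) < D := hD0.trans hD
    -- the number of blocks
    obtain ⟨N, hN⟩ : ∃ N : ℕ, ∀ D' ≤ t D, t D' < N := by
      refine ⟨(Finset.range (t D + 1)).sup t + 1, fun D' hD' => ?_⟩
      exact Nat.lt_succ_of_le (Finset.le_sup (f := t) (Finset.mem_range.2 (by omega)))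
    have hN0 : 0 < N := lt_of_le_of_lt (Nat.zero_le _) (hN (t D) le_rfl)
    refine ⟨t D, ht D, N * (t D + 1), blocksFin N (t D), by positivity, ?_, T D, ?_, ?_⟩
    · intro v
      unfold blocksFin
      rw [ncard_comap, degree_blocks]
    · intro p hp
      exact hp.2 D
    · intro H hHG hHF
      by_contra hno
      push Not at hno
      -- the minimum degree is at least two
      have hdeg : ∀ v, 2 ≤ (H.neighborSet v).ncard := by
        intro v
        have h1 := hno v
        have h2 : 2 * ((T D).edgeSet.ncard : ℝ) = (D + 1) * t D := by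
          exact_mod_cast card_edges (T D) (hT D)
        have htpos : (0 : ℝ) < t D := by exact_mod_cast ht D
        have h3 : c * ((T D).edgeSet.ncard : ℝ) * (t D : ℝ) / (t D : ℝ) ^ 2 = c * (D + 1) / 2 := by
          have : ((T D).edgeSet.ncard : ℝ) = (D + 1) * t D / 2 := by linarith
          rw [this]
          field_simp
        rw [h3] at h1
        have h4 : 4 < c * D := by
          rw [div_lt_iff₀ hc] at hD
          linarith
        have h5 : (2 : ℝ) < (H.neighborSet v).ncard := by nlinarith
        have h6 : 2 < (H.neighborSet v).ncard := by exact_mod_cast h5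
        exact h6.le
      -- transfer to the product
      let H' : SimpleGraph (Fin N × Fin (t D + 1)) := H.comap finProdFinEquiv
      have hH' : ∀ a b, H'.Adj a b → a.1 = b.1 := by
        intro a b hab
        have h1 : (blocksFin N (t D)).Adj (finProdFinEquiv a) (finProdFinEquiv b) := hHG hab
        have h2 : (blocks N (t D)).Adj (finProdFinEquiv.symm (finProdFinEquiv a))
          (finProdFinEquiv.symm (finProdFinEquiv b)) := h1
        rw [Equiv.symm_apply_apply, Equiv.symm_apply_apply] at h2
        exact h2.1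
      have hd' : ∀ v, 2 ≤ (H'.neighborSet v).ncard := by
        intro v
        rw [show (H'.neighborSet v).ncard = (H.neighborSet (finProdFinEquiv v)).ncard from
          ncard_comap _ _ _]
        exact hdeg _
      obtain ⟨l, hl3, hl, hcyc⟩ := exists_short_cycle H' hH' hd' hN0
      have hcyc' : (cycleGraph l).IsContained H := by
        refine hcyc.trans ⟨⟨⟨fun x => finProdFinEquiv x, fun {a b} h => h⟩, ?_⟩⟩
        exact finProdFinEquiv.injective
      -- `H` is a member of the family
      have hmem : (⟨N * (t D + 1), H⟩ : Σ k : ℕ, SimpleGraph (Fin k)) ∈ F := by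
        refine ⟨?_, ?_⟩
        · rw [isAcyclic_iff_free_cycleGraph]
          intro h
          exact h l hl3 hcyc'
        · intro D' hD'
          rcases Nat.lt_or_ge (t D) D' with h | h
          · exact hfree D' l hl3 (by omega) (hcyc'.trans hD')
          · obtain ⟨f⟩ := hD'
            have h1 := Fintype.card_le_of_injective f f.injective
            simp only [Fintype.card_fin] at h1
            have h2 := hN D' h
            nlinarith
      exact hHF _ hmem (IsContained.refl _)

end Pool.Agent.N427.FamilyCE
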