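import Mathlib
import Pool.Agent.N427.Degen

/-!
# A 2-degenerate graph with two independent (≤ 2)-separations and one vertex of degree 2
-/

set_option autoImplicit false

namespace Pool.Agent.N427.Flap

open SimpleGraph

/-- The graph: a vertex `0` adjacent to `1` and `2`, a 4-cycle `3 4 5 6`, the vertex `1` adjacent to
`3` and `4`, the vertex `2` adjacent to `5` and `6`. -/
def adjB : Fin 7 → Fin 7 → Bool
  | 0, 1 => true | 0, 2 => true | 1, 3 => true | 1, 4 => true | 2, 5 => true | 2, 6 => true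
  | 3, 4 => true | 4, 5 => true | 5, 6 => true | 3, 6 => true
  | 1, 0 => true | 2, 0 => true | 3, 1 => true | 4, 1 => true | 5, 2 => true | 6, 2 => true
  | 4, 3 => true | 5, 4 => true | 6, 5 => true | 6, 3 => true
  | _, _ => false

def HH : SimpleGraph (Fin 7) where
  Adj a b := adjB a b = true
  symm := ⟨by decide⟩
  loopless := ⟨by decide⟩

instance : DecidableRel HH.Adj := fun a b => inferInstanceAs (Decidable (adjB a b = true))

theorem ncard_filter {α : Type} [Fintype α] (p : α → Prop) [DecidablePred p] :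
    {x | p x}.ncard = (Finset.univ.filter p).card := by
  rw [← Set.ncard_coe_finset]
  congr 1
  ext x
  simp

theorem degenerate_HH : Degen.Degenerate 2 HH := by
  intro S hS
  refine ⟨S.min' hS, S.min'_mem hS, ?_⟩
  have h1 : ∀ v : Fin 7, (Finset.univ.filter (fun w => HH.Adj v w ∧ v < w)).card ≤ 2 := by decide
  refine le_trans ?_ (h1 (S.min' hS))
  rw [← ncard_filter]
  apply Set.ncard_le_ncard _ (Set.toFinite _)
  rintro w ⟨hw1, hw2⟩
  exact ⟨hw2, lt_of_le_of_ne (S.min'_le w hw1) hw2.ne⟩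

theorem degree_HH : ∀ v : Fin 7, v ≠ 0 → 2 < (HH.neighborSet v).ncard := by
  intro v hv
  have h1 : ∀ v : Fin 7, v ≠ 0 → 2 < (Finset.univ.filter (fun w => HH.Adj v w)).card := by decide
  have h2 := h1 v hv
  rwa [← ncard_filter] at h2

/-- the two parts of a separation with flap `X` -/
def sepA (X : Finset (Fin 7)) : HH.Subgraph where
  verts := {v | v ∈ X ∨ ∃ u ∈ X, HH.Adj u v}
  Adj u v := HH.Adj u v ∧ (u ∈ X ∨ v ∈ X)
  adj_sub := fun h => h.1
  edge_vert := by
    rintro u v ⟨h1, h2 | h2⟩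
    · exact Or.inl h2
    · exact Or.inr ⟨v, h2, h1.symm⟩
  symm := ⟨fun u v h => ⟨h.1.symm, h.2.symm⟩⟩

def sepB (X : Finset (Fin 7)) : HH.Subgraph where
  verts := {v | v ∉ X}
  Adj u v := HH.Adj u v ∧ u ∉ X ∧ v ∉ X
  adj_sub := fun h => h.1
  edge_vert := fun h => h.2.1
  symm := ⟨fun u v h => ⟨h.1.symm, h.2.2, h.2.1⟩⟩

theorem sep_sup (X : Finset (Fin 7)) : sepA X ⊔ sepB X = ⊤ := by
  ext u v
  · simp only [Subgraph.verts_sup, Subgraph.verts_top, Set.mem_union, Set.mem_univ, iff_true]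
    by_cases h : u ∈ X
    · exact Or.inl (Or.inl h)
    · exact Or.inr h
  · simp only [Subgraph.sup_adj, Subgraph.top_adj]
    constructor
    · rintro (h | h)
      · exact h.1
      · exact h.1
    · intro h
      by_cases h1 : u ∈ X
      · exact Or.inl ⟨h, Or.inl h1⟩
      · by_cases h2 : v ∈ X
        · exact Or.inl ⟨h, Or.inr h2⟩
        · exact Or.inr ⟨h, h1, h2⟩

theorem sep_disj (X : Finset (Fin 7)) : ∀ u v, (sepA X).Adj u v → ¬ (sepB X).Adj u v := by
  rintro u v ⟨_, h⟩ ⟨_, h2, h3⟩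
  tauto

theorem sep_card (X : Finset (Fin 7))
    (h : (Finset.univ.filter (fun v => v ∉ X ∧ ∃ u ∈ X, HH.Adj u v)).card ≤ 2) :
    ((sepA X).verts ∩ (sepB X).verts).ncard ≤ 2 := by
  rw [← ncard_filter] at h
  refine le_trans (Set.ncard_le_ncard ?_ (Set.toFinite _)) h
  rintro v ⟨h1 | h1, h2⟩
  · exact absurd h1 h2
  · exact ⟨h2, h1⟩

/-- the two flaps -/
def flap : Fin 2 → Finset (Fin 7) := ![{0}, {3, 4, 5, 6}]

/-- **The graph `HH` shows that the exponent is not the flap number.** -/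
theorem two_independent : ∃ A B : Fin 2 → HH.Subgraph,
    (∀ i, A i ⊔ B i = ⊤ ∧ (∀ u v, (A i).Adj u v → ¬ (B i).Adj u v) ∧
      (∃ v, v ∈ (A i).verts ∧ v ∉ (B i).verts) ∧
      (∃ v, v ∈ (B i).verts ∧ v ∉ (A i).verts) ∧
      ((A i).verts ∩ (B i).verts).ncard ≤ 2) ∧
    ∀ i j, i ≠ j →
      (∀ u v, (A i).Adj u v → ¬ (A j).Adj u v) ∧
      ∀ v, v ∈ (A i).verts → v ∉ (B i).verts → ¬ (v ∈ (A j).verts ∧ v ∉ (B j).verts) := by
  refine ⟨fun i => sepA (flap i), fun i => sepB (flap i), ?_, ?_⟩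
  · intro i
    refine ⟨sep_sup _, sep_disj _, ?_, ?_, ?_⟩
    · have h : ∀ i : Fin 2, ∃ v, v ∈ flap i := by decide
      obtain ⟨v, hv⟩ := h i
      exact ⟨v, Or.inl hv, fun h => h hv⟩
    · have h : ∀ i : Fin 2, ∃ v, v ∉ flap i ∧ ∀ u ∈ flap i, ¬ HH.Adj u v := by decide
      obtain ⟨v, hv, hv2⟩ := h i
      refine ⟨v, hv, ?_⟩
      rintro (h | ⟨u, hu, hu2⟩)
      · exact hv h
      · exact hv2 u hu hu2
    · apply sep_card
      have h : ∀ i : Fin 2,
        (Finset.univ.filter (fun v => v ∉ flap i ∧ ∃ u ∈ flap i, HH.Adj u v)).card ≤ 2 := by decide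
      exact h i
  · intro i j hij
    have h : ∀ i j : Fin 2, i ≠ j → ∀ v, v ∈ flap i → v ∉ flap j := by decide
    have h' : ∀ i j : Fin 2, i ≠ j → ∀ u v, u ∈ flap i → v ∈ flap j → ¬ HH.Adj u v := by decide
    constructor
    · rintro u v ⟨h1, h2⟩ ⟨_, h3⟩
      rcases h2 with h2 | h2 <;> rcases h3 with h3 | h3
      · exact h i j hij u h2 h3
      · exact h' i j hij u v h2 h3 h1
      · exact h' i j hij v u h2 h3 h1.symm
      · exact h i j hij v h2 h3
    · intro v _ h2 h3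
      have h4 : v ∈ flap i := by
        by_contra h5
        exact h2 h5
      have h5 : v ∈ flap j := by
        by_contra h6
        exact h3.2 h6
      exact h i j hij v h4 h5

end Pool.Agent.N427.Flap
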