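import Pool.Agent.N347.LA.Heavy
import Pool.Agent.N347.LB.State
import Pool.Agent.N11.LB_MOORE
import Pool.Agent.R448.TW.Split

set_option autoImplicit false

/-! LB/GIR (helper427 for helper347): blow-ups of regular graphs of logarithmic girth -/

namespace Pool.Agent.N427.LBGIR

open Finset Pool.Agent.N347.LA

/-- At most `q` numbers have a given quotient by `q`. -/
theorem card_div_le (n q c : ℕ) (hq : 0 < q) :
    (univ.filter (fun i : Fin n => (i : ℕ) / q = c)).card ≤ q := by
  have h1 : ((univ.filter (fun i : Fin n => (i : ℕ) / q = c)).image (fun i : Fin n => (i : ℕ))) ⊆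
      Finset.Ico (q * c) (q * c + q) := by
    intro x hx
    rw [mem_image] at hx
    obtain ⟨i, hi, rfl⟩ := hx
    rw [mem_filter] at hi
    rw [mem_Ico]
    have h2 := Nat.div_add_mod (i : ℕ) q
    have h3 := Nat.mod_lt (i : ℕ) hq
    rw [hi.2] at h2
    omega
  have h2 := card_le_card h1
  rw [card_image_of_injective _ Fin.val_injective, Nat.card_Ico] at h2
  omega

/-- Three numbers have a given quotient by `3`. -/
theorem card_div_three (d g : ℕ) (hg : 3 * g + 2 < d) :
    (univ.filter (fun j : Fin d => (j : ℕ) / 3 = g)).card = 3 := by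
  have h1 : univ.filter (fun j : Fin d => (j : ℕ) / 3 = g) =
      {⟨3 * g, by omega⟩, ⟨3 * g + 1, by omega⟩, ⟨3 * g + 2, by omega⟩} := by
    ext j
    simp only [mem_filter, mem_univ, true_and, mem_insert, mem_singleton, Fin.ext_iff]
    omega
  rw [h1, card_insert_of_notMem, card_insert_of_notMem, card_singleton]
  · simp [Fin.ext_iff]
  · simp [Fin.ext_iff]

theorem arith1 (m : ℕ) (hm : 4 ≤ m) : 2 * m ≤ m ^ 2 / 2 := by
  rw [Nat.le_div_iff_mul_le (by norm_num)]
  nlinarith

theorem arith2 (d : ℕ) (hd : 6 ≤ d) : d ≤ 4 * (d / 3) := by omega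

theorem arith3 (d m n q : ℕ) (hd : 6 ≤ d) (hn : n = d * m / 2) (hq : 2 * m ≤ q) :
    n ≤ q * (d / 3) := by
  have h1 := arith2 d hd
  have h2 : d * m ≤ 2 * (q * (d / 3)) := by
    calc d * m ≤ (4 * (d / 3)) * m := Nat.mul_le_mul_right _ h1
      _ = 2 * ((2 * m) * (d / 3)) := by ring
      _ ≤ 2 * (q * (d / 3)) := Nat.mul_le_mul_left _ (Nat.mul_le_mul_right _ hq)
  omega

theorem arith4 (d m k : ℕ) (hm : 4 ≤ m) (hk : d + 1 ≤ k) : d * m ≤ (2 * m - 4) * k := by
  obtain ⟨a, rfl⟩ := Nat.exists_eq_add_of_le hm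
  have h1 : 2 * (4 + a) - 4 = 2 * a + 4 := by omega
  rw [h1]
  nlinarith [Nat.mul_le_mul_left (2 * a + 4) hk]

open Classical in
/-- The sum of the matrices `P j` with `j / 3 = g`. -/
noncomputable def Ng {V : Type} {d : ℕ} (P : Fin d → V → V → ℕ) (g : ℕ) (u v : V) : ℕ :=
  ∑ j ∈ univ.filter (fun j : Fin d => (j : ℕ) / 3 = g), P j u v

/-- LB/GIR -/
theorem girth_main {V W : Type} [Finite V] [Finite W] (H : SimpleGraph V) (d m h : ℕ)
    (hm : 4 ≤ m) (hd : 6 ≤ d) (hH : ∀ v, (H.neighborSet v).ncard = d) (hdm : Even (d * m))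
    (hg : ∀ (v : V) (c : H.Walk v v), c.IsCycle → 2 * h + 1 ≤ c.length) (hh : d < 2 ^ h)
    (f : W → V) (hf : ∀ v, {x | f x = v}.ncard = m) :
    H931R3.LA.Cov (H.comap f) (d * m / 2 + 1) := by
  classical
  have : Fintype V := Fintype.ofFinite V
  obtain ⟨n, hn⟩ : ∃ n, n = d * m / 2 := ⟨_, rfl⟩
  obtain ⟨q, hq⟩ : ∃ q, q = m ^ 2 / 2 := ⟨_, rfl⟩
  have hn2 : 2 * n = d * m := by
    obtain ⟨r, hr⟩ := hdm
    omega
  have hqm : 2 * m ≤ q := hq ▸ arith1 m hm
  have hq2 : 2 * q ≤ m * m := by
    have : m ^ 2 = m * m := sq m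
    omega
  have hq0 : 0 < q := by omega
  have hnq : n ≤ q * (d / 3) := arith3 d m n q hd hn hqm
  -- degrees
  have hdeg : ∀ v, ∑ u, (if H.Adj v u then 1 else 0 : ℕ) = d * 1 := by
    intro v
    rw [← sum_filter, sum_const, smul_eq_mul, mul_one, mul_one, ← hH v]
    rw [← Set.ncard_coe_finset]
    congr 1
    ext x
    simp
  obtain ⟨P, hP1, hP2, hP3⟩ := Pool.Agent.R448.TW.split
    (fun u v : V => if H.Adj u v then 1 else 0) d (fun _ => 1) hdeg (fun v => by
      rw [← hdeg v]
      refine sum_congr rfl fun u _ => ?_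
      simp only [H.adj_comm])
  have hPD : ∀ j u v, P j u v ≤ if H.Adj u v then 1 else 0 := by
    intro j u v
    rw [← hP3 u v]
    exact single_le_sum (f := fun i => P i u v) (fun _ _ => Nat.zero_le _) (mem_univ j)
  have hND : ∀ g u v, Ng P g u v ≤ if H.Adj u v then 1 else 0 := by
    intro g u v
    rw [← hP3 u v]
    exact sum_le_sum_of_subset (filter_subset _ _)
  have hNr : ∀ g v, 3 * g + 2 < d → ∑ u, Ng P g v u = 3 := by
    intro g v hg
    unfold Ng
    rw [sum_comm, sum_congr rfl fun j _ => hP1 j v, sum_const, smul_eq_mul, mul_one,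
      card_div_three d g hg]
  have hNc : ∀ g v, 3 * g + 2 < d → ∑ u, Ng P g u v = 3 := by
    intro g v hg
    unfold Ng
    rw [sum_comm, sum_congr rfl fun j _ => hP2 j v, sum_const, smul_eq_mul, mul_one,
      card_div_three d g hg]
  have hgi : ∀ i : Fin n, 3 * ((i : ℕ) / q) + 2 < d := by
    intro i
    have h1 : (i : ℕ) / q < d / 3 := by
      rw [Nat.div_lt_iff_lt_mul hq0, mul_comm]
      exact lt_of_lt_of_le i.2 hnq
    omega
  have hsum : ∀ u v, ∑ i : Fin n, Ng P ((i : ℕ) / q) u v ≤
      q * (if H.Adj u v then 1 else 0) := by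
    intro u v
    rw [← hP3 u v, mul_sum]
    unfold Ng
    have h1 : ∀ i : Fin n, ∑ j ∈ univ.filter (fun j : Fin d => (j : ℕ) / 3 = (i : ℕ) / q),
        P j u v = ∑ j : Fin d, if (i : ℕ) / q = (j : ℕ) / 3 then P j u v else 0 := by
      intro i
      rw [sum_filter]
      refine sum_congr rfl fun j _ => ?_
      simp only [eq_comm]
    rw [sum_congr rfl fun i _ => h1 i, sum_comm]
    refine sum_le_sum fun j _ => ?_
    rw [← sum_filter, sum_const, smul_eq_mul]
    exact Nat.mul_le_mul_right _ (card_div_le n q _ hq0)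
  obtain ⟨J, hJ⟩ : ∃ J : Fin n → V → V → ℕ, ∀ i u v, J i u v =
      Ng P ((i : ℕ) / q) u v + Ng P ((i : ℕ) / q) v u := ⟨_, fun _ _ _ => rfl⟩
  have hJs : ∀ i u v, J i u v = J i v u := fun i u v => by rw [hJ, hJ, add_comm]
  have hJH : ∀ i u v, 0 < J i u v → H.Adj u v := by
    intro i u v h0
    by_contra hn
    have h1 := hND ((i : ℕ) / q) u v
    have h2 := hND ((i : ℕ) / q) v u
    rw [if_neg hn] at h1
    rw [if_neg fun h' => hn h'.symm] at h2
    rw [hJ] at h0
    omega
  have hJd : ∀ i v, J i v v = 0 := by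
    intro i v
    by_contra h0
    exact (hJH i v v (Nat.pos_of_ne_zero h0)).ne rfl
  have hJr : ∀ i v, ∑ u, J i v u = 2 * 3 := by
    intro i v
    rw [sum_congr rfl fun u _ => hJ i v u, sum_add_distrib, hNr _ _ (hgi i), hNc _ _ (hgi i)]
  have hst : HasState (Rel H false) (n + 1) (fun v : V => v) (fun _ => m) := by
    refine Pool.Agent.N347.LB.State.state (Rel H false) (Rel_symm H false) m 3 n (2 ^ h)
      (2 * m - 4) J ?_ hJs hJd hJr (by norm_num) (by omega) ?_ (Nat.two_pow_pos h) ?_ ?_ (by omega)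
    · intro v
      rw [mul_row, wdeg_Rel, hH]
      have h1 : d * m + (if (false : Bool) = true then m - 1 else 0) = 2 * n := by
        rw [hn2]; simp
      rw [h1]; ring
    · intro u v
      rw [sum_congr rfl fun i _ => hJ i u v, sum_add_distrib]
      have h1 := hsum u v
      have h2 := hsum v u
      by_cases ha : H.Adj u v
      · have hr : Rel H false u v := Or.inl ha
        rw [if_pos ha] at h1
        rw [if_pos ha.symm] at h2
        unfold mul
        rw [if_pos hr, if_neg ha.ne]
        show _ ≤ m * m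
        omega
      · rw [if_neg ha] at h1
        rw [if_neg fun h' => ha h'.symm] at h2
        omega
    · intro i v
      let K : SimpleGraph V :=
        { Adj := fun x y => 0 < J i x y
          symm := ⟨fun x y hxy => by rw [hJs i y x]; exact hxy⟩
          loopless := ⟨fun x hx => by rw [hJd i x] at hx; exact lt_irrefl _ hx⟩ }
      have hKH : K ≤ H := fun x y hxy => hJH i x y hxy
      have hK3 : ∀ x, 3 ≤ (K.neighborSet x).ncard := by
        intro x
        have h1 : ∑ u ∈ univ.filter (fun u => 0 < J i x u), Ng P ((i : ℕ) / q) x u =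
            ∑ u, Ng P ((i : ℕ) / q) x u := by
          refine sum_filter_of_ne fun u _ hu => ?_
          rw [hJ]
          omega
        have h2 : ∑ u ∈ univ.filter (fun u => 0 < J i x u), Ng P ((i : ℕ) / q) x u ≤
            ∑ u ∈ univ.filter (fun u => 0 < J i x u), 1 := by
          refine sum_le_sum fun u _ => (hND _ _ _).trans ?_
          split_ifs <;> omega
        rw [h1, hNr _ _ (hgi i), sum_const, smul_eq_mul, mul_one] at h2
        have h3 : K.neighborSet x = ((univ.filter (fun u => 0 < J i x u) : Finset V) : Set V) := by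
          ext u
          simp [K]
        rw [h3, Set.ncard_coe_finset]
        exact h2
      have hKg : ∀ (x : V) (c : K.Walk x x), c.IsCycle → 2 * h + 1 ≤ c.length := by
        intro x c hc
        have h1 := hg x (c.mapLe hKH) (hc.mapLe hKH)
        simpa using h1
      have h1 := Pool.Agent.N11.LBMOORE.moore K h hK3 hKg v
      refine h1.trans (le_of_eq ?_)
      rw [← Set.ncard_coe_finset]
      congr 1
      ext u
      simp only [Set.mem_ofPred_eq, coe_filter, mem_univ, true_and]
      exact SimpleGraph.reachable_iff_reflTransGen v u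
    · rw [hn2]
      exact arith4 d m (2 ^ h) hm hh
  rw [← hn]
  refine cov_of_state (Rel H false) (Rel_symm H false) (n + 1) (fun _ => m) f hf (H.comap f) ?_ hst
  intro x y
  constructor
  · intro hxy
    have hxy' : H.Adj (f x) (f y) := hxy
    exact ⟨fun h0 => hxy'.ne (by rw [h0]), Or.inl hxy'⟩
  · rintro ⟨_, h1 | h1⟩
    · exact h1
    · exact absurd h1.2 (by simp)

end Pool.Agent.N427.LBGIR
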