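import Pool.Agent.N979.P1.Stm
import Pool.Agent.N526.CP.SPH

/-!
# PROJECT P1, part SECC: the comass inequality for functions given on the sectors
-/

set_option autoImplicit false

open MeasureTheory Metric Set Filter Topology InnerProductGeometry Matrix
open scoped Pointwise

namespace Pool.Agent.N427.P1

open Pool.Agent.H241R3.FV Pool.Agent.N526.CP Pool.Agent.N979.P1

theorem inner2 (u v : E 2) : inner ℝ u v = u 0 * v 0 + u 1 * v 1 := by
  rw [PiLp.inner_apply, Fin.sum_univ_two]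
  simp only [RCLike.inner_apply, conj_trivial]
  ring

theorem Jr0 (v : E 2) : (Jr v) 0 = -(v 1) := by simp [Jr]

theorem Jr1 (v : E 2) : (Jr v) 1 = v 0 := by simp [Jr]

theorem Ax0 (θ : Sph 2) (z : E 2) : (Ax θ z) 0 = inner ℝ z (θ : E 2) := by simp [Ax]

theorem Ax1 (θ : Sph 2) (z : E 2) : (Ax θ z) 1 = -inner ℝ (Jr z) (θ : E 2) := by
  have : (Ax θ z) 1 = inner ℝ z (Jr (θ : E 2)) := by simp [Ax]
  rw [this, inner2, inner2, Jr0, Jr1, Jr0, Jr1]
  ring

theorem nsq (θ : Sph 2) : (θ : E 2) 0 ^ 2 + (θ : E 2) 1 ^ 2 = 1 := by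
  have h : ‖(θ : E 2)‖ = 1 := norm_sph θ
  have h2 : inner ℝ (θ : E 2) (θ : E 2) = ‖(θ : E 2)‖ ^ 2 := real_inner_self_eq_norm_sq _
  rw [inner2, h] at h2
  linarith

theorem Ax_sq (θ e : Sph 2) : (Ax θ (e : E 2)) 0 ^ 2 + (Ax θ (e : E 2)) 1 ^ 2 = 1 := by
  rw [Ax0, Ax1, inner2, inner2, Jr0, Jr1]
  have h1 := nsq θ
  have h2 := nsq e
  linear_combination h1 * ((e : E 2) 0 ^ 2 + (e : E 2) 1 ^ 2) + h2

theorem Ax_norm (θ e : Sph 2) : ‖Ax θ (e : E 2)‖ = 1 := by
  rw [EuclideanSpace.norm_eq, Fin.sum_univ_two, Real.norm_eq_abs, Real.norm_eq_abs, sq_abs, sq_abs,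
    Ax_sq, Real.sqrt_one]

/-- a hyperplane is a null set -/
theorem null (u : E 2) (hu : u ≠ 0) :
    ∀ᵐ θ : Sph 2 ∂(sg 2), inner ℝ u (θ : E 2) ≠ 0 := by
  rw [ae_iff]
  have hs : {θ : Sph 2 | ¬ inner ℝ u (θ : E 2) ≠ 0} = {θ : Sph 2 | inner ℝ u (θ : E 2) = 0} := by
    ext θ
    simp
  rw [hs]
  have hm : MeasurableSet {θ : Sph 2 | inner ℝ u (θ : E 2) = 0} := by
    apply IsClosed.measurableSet
    apply isClosed_eq _ continuous_const
    exact continuous_const.inner continuous_subtype_val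
  unfold sg
  rw [Measure.smul_apply, smul_eq_mul]
  unfold sig
  rw [Measure.toSphere_apply' _ hm]
  have h0 : (volume : Measure (E 2)) (Ioo (0 : ℝ) 1 • ((↑) '' {θ : Sph 2 | inner ℝ u (θ : E 2) = 0} : Set (E 2))) = 0 := by
    have hsub : (Ioo (0 : ℝ) 1 • ((↑) '' {θ : Sph 2 | inner ℝ u (θ : E 2) = 0} : Set (E 2))) ⊆
        ((ℝ ∙ u)ᗮ : Submodule ℝ (E 2)) := by
      rintro v hv
      obtain ⟨t, ht, w, ⟨θ, hθ, rfl⟩, rfl⟩ := Set.mem_smul.1 hv
      have hθ' : inner ℝ u (θ : E 2) = 0 := hθ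
      show t • (θ : E 2) ∈ (ℝ ∙ u)ᗮ
      rw [Submodule.mem_orthogonal_singleton_iff_inner_right, inner_smul_right, hθ', mul_zero]
    refine measure_mono_null hsub ?_
    apply Measure.addHaar_submodule
    intro htop
    have hu' : u ∈ (ℝ ∙ u)ᗮ := by
      rw [htop]
      trivial
    rw [Submodule.mem_orthogonal_singleton_iff_inner_right] at hu'
    exact hu (inner_self_eq_zero.1 hu')
  rw [h0]
  simp

/-- the sign -/
noncomputable def ss (x : ℝ) : ℝ := if 0 < x then 1 else -1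

theorem ss_sq (x : ℝ) : ss x * ss x = 1 := by
  unfold ss
  split_ifs <;> norm_num

theorem ss_mul (x : ℝ) : ss x * x = |x| := by
  unfold ss
  split_ifs with h
  · rw [abs_of_pos h, one_mul]
  · rw [abs_of_nonpos (not_lt.1 h)]
    ring

theorem ss_abs (x : ℝ) : |ss x| = 1 := by
  unfold ss
  split_ifs <;> norm_num

theorem ss_neg (x : ℝ) (hx : x ≠ 0) : ss (-x) = -ss x := by
  unfold ss
  rcases lt_or_gt_of_ne hx with h | h
  · rw [if_pos (by linarith), if_neg (by linarith)]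
    norm_num
  · rw [if_neg (by linarith), if_pos (by linarith)]

theorem ss_sign (x : ℝ) (hx : x ≠ 0) : (SignType.sign x : ℝ) = ss x := by
  unfold ss
  rcases lt_or_gt_of_ne hx with h | h
  · rw [if_neg (by linarith), sign_neg h]
    norm_num
  · rw [if_pos (by linarith), sign_pos h]
    norm_num

theorem ss_meas : Measurable ss := by
  unfold ss
  exact Measurable.ite (measurableSet_lt measurable_const measurable_id) measurable_const
    measurable_const

theorem meas0 (e : E 2) : Measurable (fun θ : Sph 2 => (Ax θ e) 0) := by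
  simp only [Ax0]
  exact (continuous_const.inner continuous_subtype_val).measurable

theorem meas1 (e : E 2) : Measurable (fun θ : Sph 2 => (Ax θ e) 1) := by
  simp only [Ax1]
  exact (continuous_const.inner continuous_subtype_val).neg.measurable

theorem sct_meas {L : ℕ} (t : Fin L → ℝ) (e : E 2) :
    Measurable (fun θ : Sph 2 => sct t (Ax θ e)) := by
  apply measurable_to_countable'
  intro l
  have h1 : Measurable (fun θ : Sph 2 => ∑ i : Fin L,
      (if t i * |(Ax θ e) 0| ≤ |(Ax θ e) 1| then 1 else 0 : ℕ)) := by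
    apply Finset.measurable_sum
    intro i _
    apply Measurable.ite _ measurable_const measurable_const
    exact measurableSet_le ((measurable_const.mul ((meas0 e).abs))) ((meas1 e).abs)
  have h2 := h1 (measurableSet_singleton l.val)
  convert h2 using 1
  ext θ
  simp only [Set.mem_preimage, Set.mem_singleton_iff]
  rw [Fin.ext_iff, ← Finset.card_filter]
  rfl

theorem fun_meas {L : ℕ} (t : Fin L → ℝ) (e : E 2) (f : Fin (L + 1) → ℝ) :
    Measurable (fun θ : Sph 2 => f (sct t (Ax θ e))) :=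
  (measurable_of_finite f).comp (sct_meas t e)

theorem fun_bd {L : ℕ} (f : Fin (L + 1) → ℝ) (l : Fin (L + 1)) : |f l| ≤ ∑ i, |f i| :=
  Finset.single_le_sum (f := fun i => |f i|) (fun _ _ => abs_nonneg _) (Finset.mem_univ l)

theorem sct_abs {L : ℕ} (t : Fin L → ℝ) (w w' : E 2) (h0 : |w 0| = |w' 0|) (h1 : |w 1| = |w' 1|) :
    sct t w = sct t w' := by
  unfold sct
  simp only [h0, h1]

/-- the reflection -/
noncomputable def RR (e : E 2) : E 2 ≃ₗᵢ[ℝ] E 2 := (ℝ ∙ (Jr e))ᗮ.reflection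

theorem RR_e (e : E 2) : RR e e = e := by
  unfold RR
  apply SPH.refl_fix
  rw [inner2, Jr0, Jr1]
  ring

theorem RR_J (e : E 2) : RR e (Jr e) = -Jr e := by
  unfold RR
  exact Submodule.reflection_orthogonalComplement_singleton_eq_neg _

theorem Ax_rot0 (θ : Sph 2) (e : E 2) : (Ax (rot (RR e) θ) e) 0 = (Ax θ e) 0 := by
  rw [Ax0, Ax0]
  have := SPH.ip_rot (RR e) e θ
  rw [RR_e] at this
  exact this

theorem Ax_rot1 (θ : Sph 2) (e : E 2) : (Ax (rot (RR e) θ) e) 1 = -(Ax θ e) 1 := by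
  rw [Ax1, Ax1]
  have h := SPH.ip_rot (RR e) (Jr e) θ
  rw [RR_J] at h
  unfold ip at h
  rw [inner_neg_left] at h
  linarith

/-- integrals of odd functions vanish -/
theorem odd_int (e : Sph 2) (F : Sph 2 → ℝ) (hF : Measurable F)
    (ho : ∀ θ : Sph 2, (Ax θ (e : E 2)) 0 ≠ 0 → (Ax θ (e : E 2)) 1 ≠ 0 →
      F (rot (RR (e : E 2)) θ) = -F θ)
    (hne : ∀ᵐ θ ∂(sg 2), (Ax θ (e : E 2)) 0 ≠ 0 ∧ (Ax θ (e : E 2)) 1 ≠ 0) :
    ∫ θ, F θ ∂(sg 2) = 0 := by
  have hmp := SPH.mp 1 (RR (e : E 2))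
  have h1 : ∫ θ, F θ ∂(sg 2) = ∫ θ, F (rot (RR (e : E 2)) θ) ∂(sg 2) := by
    conv_lhs => rw [← hmp.map_eq]
    rw [integral_map hmp.measurable.aemeasurable hF.aestronglyMeasurable]
  have h2 : ∫ θ, F (rot (RR (e : E 2)) θ) ∂(sg 2) = ∫ θ, -F θ ∂(sg 2) := by
    apply integral_congr_ae
    filter_upwards [hne] with θ hθ
    exact ho θ hθ.1 hθ.2
  rw [integral_neg] at h2
  linarith

/-- **P1/SECC** -/
theorem main (h1 : S_COMA) (h2 : S_SEC) : S_SECC := by
  intro L t ht hmono α β α' β' l hC A C hA hCC e a ha ha1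
  have hprob : IsProbabilityMeasure (sg 2) := SPH.prob 1
  have he0 : (e : E 2) ≠ 0 := by
    intro h0
    have h : ‖(e : E 2)‖ = 1 := norm_sph e
    rw [h0, norm_zero] at h
    exact zero_ne_one h
  have hJ0 : Jr (e : E 2) ≠ 0 := by
    intro h0
    apply he0
    have e0 : (Jr (e : E 2)) 0 = 0 := by rw [h0]; rfl
    have e1 : (Jr (e : E 2)) 1 = 0 := by rw [h0]; rfl
    rw [Jr0] at e0
    rw [Jr1] at e1
    ext i
    fin_cases i
    · exact e1
    · show (e : E 2) 1 = 0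
      linarith
  have hne : ∀ᵐ θ ∂(sg 2), (Ax θ (e : E 2)) 0 ≠ 0 ∧ (Ax θ (e : E 2)) 1 ≠ 0 := by
    filter_upwards [null _ he0, null _ hJ0] with θ h3 h4
    rw [Ax0, Ax1]
    exact ⟨h3, neg_ne_zero.2 h4⟩
  -- the functions
  set w0 : Sph 2 → ℝ := fun θ => (Ax θ (e : E 2)) 0 with hw0
  set w1 : Sph 2 → ℝ := fun θ => (Ax θ (e : E 2)) 1 with hw1
  set s : Sph 2 → Fin (L + 1) := fun θ => sct t (Ax θ (e : E 2)) with hs
  have mw0 : Measurable w0 := meas0 _
  have mw1 : Measurable w1 := meas1 _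
  have mf : ∀ f : Fin (L + 1) → ℝ, Measurable (fun θ => f (s θ)) := fun f => fun_meas t _ f
  set A' : Sph 2 → ℝ := fun θ => ss (w1 θ) * (α (s θ) * |w0 θ| + β (s θ) * |w1 θ|) with hA'
  set C' : Sph 2 → ℝ := fun θ => ss (w0 θ) * (α' (s θ) * |w1 θ| - β' (s θ) * |w0 θ|) with hC'
  have mA : Measurable A' :=
    (ss_meas.comp mw1).mul (((mf α).mul mw0.abs).add ((mf β).mul mw1.abs))
  have mC : Measurable C' :=
    (ss_meas.comp mw0).mul (((mf α').mul mw1.abs).sub ((mf β').mul mw0.abs))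
  have hsq : ∀ θ, w0 θ ^ 2 + w1 θ ^ 2 = 1 := fun θ => Ax_sq θ e
  have b0 : ∀ θ, |w0 θ| ≤ 1 := fun θ => by
    apply abs_le_one_iff_mul_self_le_one.2
    nlinarith [hsq θ, sq_nonneg (w1 θ)]
  have b1 : ∀ θ, |w1 θ| ≤ 1 := fun θ => by
    apply abs_le_one_iff_mul_self_le_one.2
    nlinarith [hsq θ, sq_nonneg (w0 θ)]
  set B : ℝ := 1 + ((∑ i, |α i|) + ∑ i, |β i|) + ((∑ i, |α' i|) + ∑ i, |β' i|) with hB
  have sn : ∀ f : Fin (L + 1) → ℝ, 0 ≤ ∑ i, |f i| := fun f =>
    Finset.sum_nonneg fun i _ => abs_nonneg _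
  have fb : ∀ (f : Fin (L + 1) → ℝ) (θ : Sph 2) (x : ℝ), |x| ≤ 1 →
      |f (s θ) * (|x|)| ≤ ∑ i, |f i| := by
    intro f θ x hx
    rw [abs_mul, abs_abs]
    have := fun_bd f (s θ)
    nlinarith [abs_nonneg x, abs_nonneg (f (s θ)), sn f]
  have bA : ∀ θ, |A' θ| ≤ B := by
    intro θ
    rw [hA']
    simp only
    rw [abs_mul, ss_abs, one_mul]
    have := abs_add_le (α (s θ) * |w0 θ|) (β (s θ) * |w1 θ|)
    have := fb α θ _ (b0 θ)
    have := fb β θ _ (b1 θ)
    have := sn α'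
    have := sn β'
    rw [hB]
    linarith
  have bC : ∀ θ, |C' θ| ≤ B := by
    intro θ
    rw [hC']
    simp only
    rw [abs_mul, ss_abs, one_mul]
    have := abs_sub (α' (s θ) * |w1 θ|) (β' (s θ) * |w0 θ|)
    have := fb α' θ _ (b1 θ)
    have := fb β' θ _ (b0 θ)
    have := sn α
    have := sn β
    rw [hB]
    linarith
  have hB1 : 1 ≤ B := by
    have := sn α
    have := sn β
    have := sn α'
    have := sn β'
    rw [hB]
    linarith
  -- the weights
  obtain ⟨i0, hi0⟩ := Finite.exists_min l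
  have lpos : ∀ θ, 0 < l (s θ) := fun θ => hC.pos _
  have lne : ∀ i, l i ≠ 0 := fun i => (hC.pos i).ne'
  -- the values of the integrals
  have hsec := h2 L t ht hmono e
  have hpi := Real.pi_pos
  have symm : ∀ θ, w0 (rot (RR (e : E 2)) θ) = w0 θ := fun θ => Ax_rot0 θ _
  have symm1 : ∀ θ, w1 (rot (RR (e : E 2)) θ) = -w1 θ := fun θ => Ax_rot1 θ _
  have symms : ∀ θ, s (rot (RR (e : E 2)) θ) = s θ := fun θ => by
    apply sct_abs
    · exact congrArg abs (symm θ)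
    · have := congrArg abs (symm1 θ)
      rw [abs_neg] at this
      exact this
  have symmC : ∀ θ, C' (rot (RR (e : E 2)) θ) = C' θ := fun θ => by
    rw [hC']
    simp only
    rw [symm, symm1, symms, abs_neg]
  have symmA : ∀ θ, w1 θ ≠ 0 → A' (rot (RR (e : E 2)) θ) = -A' θ := fun θ hθ => by
    rw [hA']
    simp only
    rw [symm, symm1, symms, abs_neg, ss_neg _ hθ]
    ring
  set φ : Fin 2 → Sph 2 → ℝ := ![w0, C'] with hφ
  set ψ : Fin 2 → Sph 2 → ℝ := ![A', fun θ => -w1 θ] with hψ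
  have φ0 : φ 0 = w0 := rfl
  have φ1 : φ 1 = C' := rfl
  have ψ0 : ψ 0 = A' := rfl
  have ψ1 : ψ 1 = fun θ => -w1 θ := rfl
  have mφ : ∀ i, Measurable (φ i) := by
    intro i
    fin_cases i
    · exact mw0
    · exact mC
  have mψ : ∀ i, Measurable (ψ i) := by
    intro i
    fin_cases i
    · exact mA
    · exact mw1.neg
  have ml := mf l
  have X00 : ∫ θ, φ 0 θ * φ 0 θ / l (s θ) ∂(sg 2) = 2 / Real.pi * ∑ i, Icc2 t i / l i := by
    have := hsec (fun i => 1 / l i) 0 0 0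
    rw [show (∑ i, Icc2 t i / l i) = ∑ i, ((fun i => 1 / l i) i * Icc2 t i +
      2 * (0 : Fin (L + 1) → ℝ) i * Ics2 t i + (0 : Fin (L + 1) → ℝ) i * Iss2 t i +
      (0 : Fin (L + 1) → ℝ) i * Dl t i) from ?_, ← this]
    · congr 1
      funext θ
      rw [φ0]
      simp only [Pi.zero_apply]
      ring
    · apply Finset.sum_congr rfl
      intro i _
      simp only [Pi.zero_apply]
      ring
  have X01 : ∫ θ, φ 0 θ * φ 1 θ / l (s θ) ∂(sg 2) =
      2 / Real.pi * ∑ i, (α' i * Ics2 t i - β' i * Icc2 t i) / l i := by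
    have := hsec (fun i => -β' i / l i) (fun i => α' i / (2 * l i)) 0 0
    rw [show (∑ i, (α' i * Ics2 t i - β' i * Icc2 t i) / l i) =
      ∑ i, ((fun i => -β' i / l i) i * Icc2 t i +
      2 * (fun i => α' i / (2 * l i)) i * Ics2 t i + (0 : Fin (L + 1) → ℝ) i * Iss2 t i +
      (0 : Fin (L + 1) → ℝ) i * Dl t i) from ?_, ← this]
    · congr 1
      funext θ
      rw [φ0, φ1, hC']
      simp only [Pi.zero_apply]
      have e1 := ss_mul (w0 θ)
      have e2 : |w0 θ| * |w0 θ| = w0 θ ^ 2 := by rw [abs_mul_abs_self]; ring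
      have e3 := lne (s θ)
      show w0 θ * (ss (w0 θ) * (α' (s θ) * |w1 θ| - β' (s θ) * |w0 θ|)) / l (s θ) =
        -β' (s θ) / l (s θ) * w0 θ ^ 2 + 2 * (α' (s θ) / (2 * l (s θ))) * |w0 θ| * |w1 θ| +
        0 * w1 θ ^ 2 + 0
      rw [← mul_assoc, mul_comm (w0 θ) (ss (w0 θ)), e1, ← e2]
      field_simp
      ring
    · apply Finset.sum_congr rfl
      intro i _
      have e3 := lne i
      simp only [Pi.zero_apply]
      field_simp
      ring
  have X11 : ∫ θ, φ 1 θ * φ 1 θ / l (s θ) ∂(sg 2) = 2 / Real.pi * ∑ i,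
      (α' i ^ 2 * Iss2 t i - 2 * α' i * β' i * Ics2 t i + β' i ^ 2 * Icc2 t i) / l i := by
    have := hsec (fun i => β' i ^ 2 / l i) (fun i => -(α' i * β' i) / l i)
      (fun i => α' i ^ 2 / l i) 0
    rw [show (∑ i, (α' i ^ 2 * Iss2 t i - 2 * α' i * β' i * Ics2 t i + β' i ^ 2 * Icc2 t i) / l i) =
      ∑ i, ((fun i => β' i ^ 2 / l i) i * Icc2 t i +
      2 * (fun i => -(α' i * β' i) / l i) i * Ics2 t i + (fun i => α' i ^ 2 / l i) i * Iss2 t i +
      (0 : Fin (L + 1) → ℝ) i * Dl t i) from ?_, ← this]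
    · congr 1
      funext θ
      rw [φ1, hC']
      simp only [Pi.zero_apply]
      have e1 := ss_sq (w0 θ)
      have e2 : |w0 θ| * |w0 θ| = w0 θ ^ 2 := by rw [abs_mul_abs_self]; ring
      have e4 : |w1 θ| * |w1 θ| = w1 θ ^ 2 := by rw [abs_mul_abs_self]; ring
      have e3 := lne (s θ)
      show ss (w0 θ) * (α' (s θ) * |w1 θ| - β' (s θ) * |w0 θ|) *
        (ss (w0 θ) * (α' (s θ) * |w1 θ| - β' (s θ) * |w0 θ|)) / l (s θ) =
        β' (s θ) ^ 2 / l (s θ) * w0 θ ^ 2 +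
        2 * (-(α' (s θ) * β' (s θ)) / l (s θ)) * |w0 θ| * |w1 θ| +
        α' (s θ) ^ 2 / l (s θ) * w1 θ ^ 2 + 0
      rw [← e2, ← e4, mul_mul_mul_comm, e1]
      field_simp
      ring
    · apply Finset.sum_congr rfl
      intro i _
      have e3 := lne i
      simp only [Pi.zero_apply]
      field_simp
      ring
  have Y00 : ∫ θ, ψ 0 θ * ψ 0 θ / l (s θ) ∂(sg 2) = 2 / Real.pi * ∑ i,
      (α i ^ 2 * Icc2 t i + 2 * α i * β i * Ics2 t i + β i ^ 2 * Iss2 t i) / l i := by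
    have := hsec (fun i => α i ^ 2 / l i) (fun i => (α i * β i) / l i)
      (fun i => β i ^ 2 / l i) 0
    rw [show (∑ i, (α i ^ 2 * Icc2 t i + 2 * α i * β i * Ics2 t i + β i ^ 2 * Iss2 t i) / l i) =
      ∑ i, ((fun i => α i ^ 2 / l i) i * Icc2 t i +
      2 * (fun i => (α i * β i) / l i) i * Ics2 t i + (fun i => β i ^ 2 / l i) i * Iss2 t i +
      (0 : Fin (L + 1) → ℝ) i * Dl t i) from ?_, ← this]
    · congr 1
      funext θ
      rw [ψ0, hA']
      simp only [Pi.zero_apply]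
      have e1 := ss_sq (w1 θ)
      have e2 : |w0 θ| * |w0 θ| = w0 θ ^ 2 := by rw [abs_mul_abs_self]; ring
      have e4 : |w1 θ| * |w1 θ| = w1 θ ^ 2 := by rw [abs_mul_abs_self]; ring
      have e3 := lne (s θ)
      show ss (w1 θ) * (α (s θ) * |w0 θ| + β (s θ) * |w1 θ|) *
        (ss (w1 θ) * (α (s θ) * |w0 θ| + β (s θ) * |w1 θ|)) / l (s θ) =
        α (s θ) ^ 2 / l (s θ) * w0 θ ^ 2 +
        2 * (α (s θ) * β (s θ) / l (s θ)) * |w0 θ| * |w1 θ| +
        β (s θ) ^ 2 / l (s θ) * w1 θ ^ 2 + 0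
      rw [← e2, ← e4, mul_mul_mul_comm, e1]
      field_simp
      ring
    · apply Finset.sum_congr rfl
      intro i _
      have e3 := lne i
      simp only [Pi.zero_apply]
      field_simp
      ring
  have Y01 : ∫ θ, ψ 0 θ * ψ 1 θ / l (s θ) ∂(sg 2) =
      2 / Real.pi * -∑ i, (α i * Ics2 t i + β i * Iss2 t i) / l i := by
    have := hsec 0 (fun i => -α i / (2 * l i)) (fun i => -β i / l i) 0
    rw [show (-∑ i, (α i * Ics2 t i + β i * Iss2 t i) / l i) =
      ∑ i, ((0 : Fin (L + 1) → ℝ) i * Icc2 t i +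
      2 * (fun i => -α i / (2 * l i)) i * Ics2 t i + (fun i => -β i / l i) i * Iss2 t i +
      (0 : Fin (L + 1) → ℝ) i * Dl t i) from ?_, ← this]
    · congr 1
      funext θ
      rw [ψ0, ψ1, hA']
      simp only [Pi.zero_apply]
      have e1 := ss_mul (w1 θ)
      have e4 : |w1 θ| * |w1 θ| = w1 θ ^ 2 := by rw [abs_mul_abs_self]; ring
      have e3 := lne (s θ)
      show ss (w1 θ) * (α (s θ) * |w0 θ| + β (s θ) * |w1 θ|) * -w1 θ / l (s θ) =
        0 * w0 θ ^ 2 + 2 * (-α (s θ) / (2 * l (s θ))) * |w0 θ| * |w1 θ| +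
        -β (s θ) / l (s θ) * w1 θ ^ 2 + 0
      have e5 : ss (w1 θ) * (α (s θ) * |w0 θ| + β (s θ) * |w1 θ|) * -w1 θ =
        -((ss (w1 θ) * w1 θ) * (α (s θ) * |w0 θ| + β (s θ) * |w1 θ|)) := by ring
      rw [e5, e1, ← e4]
      field_simp
      ring
    · rw [← Finset.sum_neg_distrib]
      apply Finset.sum_congr rfl
      intro i _
      have e3 := lne i
      simp only [Pi.zero_apply]
      field_simp
      ring
  have Y11 : ∫ θ, ψ 1 θ * ψ 1 θ / l (s θ) ∂(sg 2) = 2 / Real.pi * ∑ i, Iss2 t i / l i := by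
    have := hsec 0 0 (fun i => 1 / l i) 0
    rw [show (∑ i, Iss2 t i / l i) = ∑ i, ((0 : Fin (L + 1) → ℝ) i * Icc2 t i +
      2 * (0 : Fin (L + 1) → ℝ) i * Ics2 t i + (fun i => 1 / l i) i * Iss2 t i +
      (0 : Fin (L + 1) → ℝ) i * Dl t i) from ?_, ← this]
    · congr 1
      funext θ
      rw [ψ1]
      simp only [Pi.zero_apply]
      ring
    · apply Finset.sum_congr rfl
      intro i _
      simp only [Pi.zero_apply]
      ring
  have hl1 : ∫ θ, l (s θ) ∂(sg 2) ≤ 1 := by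
    have h3 := hsec 0 0 0 l
    have h4 : ∫ θ, l (s θ) ∂(sg 2) = 2 / Real.pi * ∑ i, l i * Dl t i := by
      rw [show (∑ i, l i * Dl t i) = ∑ i, ((0 : Fin (L + 1) → ℝ) i * Icc2 t i +
        2 * (0 : Fin (L + 1) → ℝ) i * Ics2 t i + (0 : Fin (L + 1) → ℝ) i * Iss2 t i +
        l i * Dl t i) from ?_, ← h3]
      · congr 1
        funext θ
        simp only [Pi.zero_apply]
        ring
      · apply Finset.sum_congr rfl
        intro i _
        simp only [Pi.zero_apply]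
        ring
    rw [h4]
    calc 2 / Real.pi * ∑ i, l i * Dl t i ≤ 2 / Real.pi * (Real.pi / 2) :=
          mul_le_mul_of_nonneg_left hC.sum (by positivity)
      _ = 1 := by field_simp
  -- the mixed integrals
  have mix : ∀ i j, ∫ θ, φ i θ * ψ j θ / l (s θ) ∂(sg 2) = 0 := by
    intro i j
    apply odd_int e _ (((mφ i).mul (mψ j)).div ml) _ hne
    intro θ h3 h4
    have hφe : φ i (rot (RR (e : E 2)) θ) = φ i θ := by
      fin_cases i
      · exact symm θ
      · exact symmC θ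
    have hψo : ψ j (rot (RR (e : E 2)) θ) = -ψ j θ := by
      fin_cases j
      · exact symmA θ h4
      · show -w1 _ = - -w1 θ
        rw [symm1]
    show φ i (rot (RR (e : E 2)) θ) * ψ j (rot (RR (e : E 2)) θ) / l (s (rot (RR (e : E 2)) θ)) =
      -(φ i θ * ψ j θ / l (s θ))
    rw [hφe, hψo, symms]
    ring
  obtain ⟨htr, hdet⟩ := hC.tr _ _ _ _ _ _ rfl rfl rfl rfl rfl rfl
  have key := h1 (Sph 2) (sg 2) φ ψ (fun θ => l (s θ)) mφ mψ ml
    ⟨B, by
      intro i θ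
      have c0 := (b0 θ).trans hB1
      have c1 := (b1 θ).trans hB1
      fin_cases i
      · exact ⟨c0, bA θ⟩
      · refine ⟨bC θ, ?_⟩
        show |-w1 θ| ≤ B
        rw [abs_neg]
        exact c1⟩
    ⟨l i0, ∑ i, |l i|, hC.pos _, fun θ => ⟨hi0 _, (le_abs_self _).trans (fun_bd l _)⟩⟩
    mix hl1
    (fun i j => ∫ θ, φ i θ * φ j θ / l (s θ) ∂(sg 2))
    (fun i j => ∫ θ, ψ i θ * ψ j θ / l (s θ) ∂(sg 2)) (fun i j => rfl) (fun i j => rfl)
    (by
      rw [X00, X01, X11, Y00, Y01, Y11]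
      have e1 : ∀ x00 x01 x11 y00 y01 y11 : ℝ,
          x00 * y00 + 2 * (x01 * y01) + x11 * y11 ≤ 2 * Real.pi ^ 2 →
          2 / Real.pi * x00 * (2 / Real.pi * y00) + 2 * (2 / Real.pi * x01 * (2 / Real.pi * y01)) +
          2 / Real.pi * x11 * (2 / Real.pi * y11) ≤ 8 := by
        intro x00 x01 x11 y00 y01 y11 h
        have e2 : 2 / Real.pi * x00 * (2 / Real.pi * y00) +
            2 * (2 / Real.pi * x01 * (2 / Real.pi * y01)) +
            2 / Real.pi * x11 * (2 / Real.pi * y11) =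
            (4 / Real.pi ^ 2) * (x00 * y00 + 2 * (x01 * y01) + x11 * y11) := by
          field_simp
          ring
        rw [e2]
        calc (4 / Real.pi ^ 2) * (x00 * y00 + 2 * (x01 * y01) + x11 * y11)
            ≤ (4 / Real.pi ^ 2) * (2 * Real.pi ^ 2) :=
              mul_le_mul_of_nonneg_left h (by positivity)
          _ = 8 := by field_simp; norm_num
      exact e1 _ _ _ _ _ _ htr)
    (by
      rw [X00, X01, X11, Y00, Y01, Y11]
      have e1 : ∀ x00 x01 x11 y00 y01 y11 : ℝ,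
          0 ≤ Real.pi ^ 4 - Real.pi ^ 2 * (x00 * y00 + 2 * (x01 * y01) + x11 * y11) +
            (x00 * x11 - x01 ^ 2) * (y00 * y11 - y01 ^ 2) →
          0 ≤ 16 - 4 * (2 / Real.pi * x00 * (2 / Real.pi * y00) +
            2 * (2 / Real.pi * x01 * (2 / Real.pi * y01)) +
            2 / Real.pi * x11 * (2 / Real.pi * y11)) +
            (2 / Real.pi * x00 * (2 / Real.pi * x11) - (2 / Real.pi * x01) ^ 2) *
            (2 / Real.pi * y00 * (2 / Real.pi * y11) - (2 / Real.pi * y01) ^ 2) := by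
        intro x00 x01 x11 y00 y01 y11 h
        have e2 : 16 - 4 * (2 / Real.pi * x00 * (2 / Real.pi * y00) +
            2 * (2 / Real.pi * x01 * (2 / Real.pi * y01)) +
            2 / Real.pi * x11 * (2 / Real.pi * y11)) +
            (2 / Real.pi * x00 * (2 / Real.pi * x11) - (2 / Real.pi * x01) ^ 2) *
            (2 / Real.pi * y00 * (2 / Real.pi * y11) - (2 / Real.pi * y01) ^ 2) =
            (16 / Real.pi ^ 4) * (Real.pi ^ 4 -
              Real.pi ^ 2 * (x00 * y00 + 2 * (x01 * y01) + x11 * y11) +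
            (x00 * x11 - x01 ^ 2) * (y00 * y11 - y01 ^ 2)) := by
          field_simp
          ring
        rw [e2]
        exact mul_nonneg (by positivity) h
      exact e1 _ _ _ _ _ _ hdet)
    a ha ha1
  -- conclusion
  have hAA : ∫ θ, A (Ax θ (e : E 2)) • a θ ∂(sg 2) = ∫ θ, A' θ • a θ ∂(sg 2) := by
    apply integral_congr_ae
    filter_upwards [hne] with θ hθ
    have := hA (Ax θ (e : E 2)) (Ax_norm θ e) hθ.1 hθ.2
    rw [this, ss_sign _ hθ.2]
  have hCC' : ∫ θ, C (Ax θ (e : E 2)) • a θ ∂(sg 2) = ∫ θ, C' θ • a θ ∂(sg 2) := by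
    apply integral_congr_ae
    filter_upwards [hne] with θ hθ
    have := hCC (Ax θ (e : E 2)) (Ax_norm θ e) hθ.1 hθ.2
    rw [this, ss_sign _ hθ.1]
  have hneg : ∫ θ, ψ 1 θ • a θ ∂(sg 2) = -∫ θ, w1 θ • a θ ∂(sg 2) := by
    rw [ψ1, ← integral_neg]
    congr 1
    funext θ
    rw [neg_smul]
  unfold Jf
  rw [hAA, hCC']
  rw [hneg, φ0, φ1, ψ0] at key
  have hdt : ∀ u v : E 2, dt u (-v) = dt v u := by
    intro u v
    unfold dt
    simp only [PiLp.neg_apply]
    ring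
  rw [hdt] at key
  exact key

end Pool.Agent.N427.P1
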