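import Mathlib
import Pool.Agent.N906.RS.Stm

/-!
# Project RS, part LO: the lower bound
-/

set_option autoImplicit false
set_option linter.unusedSectionVars false

namespace Pool.Agent.N427.RS

open NumberField IsDedekindDomain Finset Filter Topology Pool.Agent.H691R3 Pool.Agent.W223.AK
open Pool.Agent.N906.RS

variable {K : Type} [Field K] [NumberField K]

/-! ### ideals -/

/-- the radical -/
noncomputable def rd (a : Idl K) : Idl K := a.mapRange (fun n => min n 1) (by simp)

theorem rd_apply (a : Idl K) (v : Pr K) : rd a v = min (a v) 1 := by simp [rd]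

theorem rd_support (a : Idl K) : (rd a).support = a.support := by
  ext v
  rw [Finsupp.mem_support_iff, Finsupp.mem_support_iff, rd_apply]
  omega

theorem len_rd (a : Idl K) : len (rd a) = rl a := by
  unfold len rl
  rw [rd_support]
  refine Finset.sum_congr rfl fun v hv => ?_
  have h : a v ≠ 0 := Finsupp.mem_support_iff.1 hv
  rw [rd_apply, min_eq_right (Nat.one_le_iff_ne_zero.2 h)]
  simp

theorem len_single (v : Pr K) (n : ℕ) : len (Finsupp.single v n : Idl K) = n * Real.log (Nv v) := by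
  rw [len_eq_sum (s := {v}) Finsupp.support_single_subset]
  simp

/-- the ideal divided by its radical -/
noncomputable def xs (a : Idl K) : Idl K := a - rd a

theorem xs_apply (a : Idl K) (v : Pr K) : xs a v = a v - 1 := by
  simp only [xs, Finsupp.tsub_apply, rd_apply]
  omega

theorem len_xs (a : Idl K) : len (xs a) + rl a = len a := by
  rw [← len_rd, ← len_add, xs, tsub_add_cancel_of_le]
  intro v
  rw [rd_apply]
  exact min_le_left _ _

/-! ### the ideals of a point -/

theorem isP_unique {x : K} {P P' : Fin 3 → Idl K} (h : IsP ∅ x P) (h' : IsP ∅ x P') : P = P' := by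
  funext l
  ext v
  have h1 := h.val l v (Finset.notMem_empty v)
  have h2 := h'.val l v (Finset.notMem_empty v)
  rw [h1] at h2
  have h3 : (0 : ℝ) < max (fv v x) 1 := lt_max_of_lt_right one_pos
  have h5 := Nv_zpow_inj v (mul_left_cancel₀ h3.ne' h2)
  omega

open Classical in
/-- the ideals of a point -/
noncomputable def pid (x : K) : Fin 3 → Idl K := if h : ∃ P, IsP ∅ x P then h.choose else 0

theorem pid_spec {x : K} (hx : Pt x) : IsP ∅ x (pid x) := by
  have h := exists_isP ∅ hx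
  unfold pid
  rw [dif_pos h]
  exact h.choose_spec

theorem tr_le {x : K} {X κ : ℝ} (hx : Pt x) (hX : ht x ≤ X) (hκ : 0 ≤ κ)
    (hT : κ * X + 3 * cS (∅ : Finset (Pr K)) ≤ ∑ l, len (xs (pid x l))) :
    tr (pid x) ≤ (3 - κ) * ht x := by
  have hP := pid_spec hx
  have h1 : ∀ l, rl (pid x l) + len (xs (pid x l)) ≤ ht x + cS (∅ : Finset (Pr K)) := by
    intro l
    have h2 := len_le hx hP l
    have h3 := len_xs (pid x l)
    linarith
  have h4 : tr (pid x) + ∑ l, len (xs (pid x l)) ≤ 3 * (ht x + cS (∅ : Finset (Pr K))) := by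
    unfold tr
    rw [← Finset.sum_add_distrib]
    refine (Finset.sum_le_sum fun l _ => h1 l).trans ?_
    rw [Finset.sum_const, Finset.card_univ, Fintype.card_fin, nsmul_eq_mul]
    norm_num
  nlinarith

/-! ### the gap principle without archimedean conditions -/

theorem cell0 (h1 : S_CELL K) : ∃ C : ℝ, 0 < C ∧ ∀ (X : ℝ) (D : Fin 3 → Idl K) (F : Finset K),
    0 ≤ X → (∀ x ∈ F, Pt x ∧ ht x ≤ X ∧ ∀ l, D l ≤ pid x l) →
    (F.card : ℝ) ≤ C * (Real.exp (2 * X - tl D) + 1) := by
  obtain ⟨C, hC, h⟩ := h1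
  refine ⟨C, hC, fun X D F hX hF => ?_⟩
  have h2 := h X D (fun _ => 0) (fun _ => 0) F hX (fun _ => le_rfl) (fun x hx => ?_)
  · simpa using h2
  · obtain ⟨h3, h4, h5⟩ := hF x hx
    refine ⟨h3, h4, fun w => ?_, pid x, pid_spec h3, h5⟩
    unfold lm
    refine mul_nonneg (mt_pos _).le (Real.log_nonneg ?_)
    rw [one_le_div ((av (Sum.inl w)).pos (L_ne h3 0)), L_zero]
    exact le_max_left _ _

/-! ### the modified triple -/

/-- the triple used for `E` -/
noncomputable def Dq (E : Fin 3 → Idl K) (q : Pr K) (j : ℕ) : Fin 3 → Idl K := fun l =>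
  E l + rd (E l) + if l = 0 then Finsupp.single q (j + 1) else 0

section Dq

variable {E : Fin 3 → Idl K} {q : Pr K} {j : ℕ}

theorem tl_Dq : tl (Dq E q j) = tl E + tr E + (j + 1 : ℕ) * Real.log (Nv q) := by
  have h : ∀ l, len (Dq E q j l) = len (E l) + rl (E l) +
      if l = 0 then ((j + 1 : ℕ) : ℝ) * Real.log (Nv q) else 0 := by
    intro l
    unfold Dq
    rw [len_add, len_add, len_rd]
    split_ifs
    · rw [len_single]
    · rw [len_zero]
  unfold tl tr
  simp only [h]
  rw [Finset.sum_add_distrib, Finset.sum_add_distrib]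
  simp

theorem Dq_apply_ne {l : Fin 3} {v : Pr K} (hv : v ≠ q) : Dq E q j l v = E l v + min (E l v) 1 := by
  unfold Dq
  rw [Finsupp.add_apply, Finsupp.add_apply, rd_apply]
  split_ifs
  · rw [Finsupp.single_eq_of_ne hv, add_zero]
  · rfl

theorem Dq_apply_q (hq : ∀ l, E l q = 0) (l : Fin 3) :
    Dq E q j l q = if l = 0 then j + 1 else 0 := by
  unfold Dq
  rw [Finsupp.add_apply, Finsupp.add_apply, rd_apply, hq l]
  split_ifs
  · rw [Finsupp.single_eq_same]
    simp
  · rfl

theorem PC_Dq (hE : PC E) (hq : ∀ l, E l q = 0) : PC (Dq E q j) := by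
  intro l l' hl v
  by_cases hv : v = q
  · subst hv
    rw [Dq_apply_q hq, Dq_apply_q hq]
    by_cases h0 : l = 0
    · right
      rw [if_neg]
      intro h1
      exact hl (h0.trans h1.symm)
    · left
      rw [if_neg h0]
  · rw [Dq_apply_ne hv, Dq_apply_ne hv]
    rcases hE l l' hl v with h | h
    · left
      rw [h]
      rfl
    · right
      rw [h]
      rfl

theorem rsum_Dq (hq : ∀ l, E l q = 0) : rsum (Dq E q j) ≤ rsum E + (Nv q)⁻¹ := by
  classical
  have h : ∀ l, ∑ v ∈ (Dq E q j l).support, (Nv v)⁻¹ ≤ ∑ v ∈ (E l).support, (Nv v)⁻¹ +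
      if l = 0 then (Nv q)⁻¹ else 0 := by
    intro l
    have hsub : (Dq E q j l).support ⊆ (E l).support ∪ if l = 0 then {q} else ∅ := by
      intro v hv
      rw [Finsupp.mem_support_iff] at hv
      rw [Finset.mem_union]
      by_cases hvq : v = q
      · subst hvq
        rw [Dq_apply_q hq] at hv
        right
        split_ifs at hv ⊢ with h0
        · exact Finset.mem_singleton_self v
        · exact absurd rfl hv
      · left
        rw [Dq_apply_ne hvq] at hv
        rw [Finsupp.mem_support_iff]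
        intro h0
        rw [h0] at hv
        exact hv rfl
    have hdisj : Disjoint (E l).support (if l = 0 then {q} else ∅) := by
      split_ifs
      · rw [Finset.disjoint_singleton_right, Finsupp.mem_support_iff, not_not]
        exact hq l
      · exact Finset.disjoint_empty_right _
    refine (Finset.sum_le_sum_of_subset_of_nonneg hsub fun v _ _ =>
      (inv_pos.2 (Nv_pos v)).le).trans ?_
    rw [Finset.sum_union hdisj]
    split_ifs
    · rw [Finset.sum_singleton]
    · rw [Finset.sum_empty]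
  unfold rsum
  refine (Finset.sum_le_sum fun l _ => h l).trans ?_
  rw [Finset.sum_add_distrib]
  simp

theorem xs_Dq (hq : ∀ l, E l q = 0) {x : K} (hx : ∀ l, Dq E q j l ≤ pid x l) :
    tl E + j * Real.log (Nv q) ≤ ∑ l, len (xs (pid x l)) := by
  have h : ∀ l, E l + (if l = 0 then Finsupp.single q j else 0) ≤ xs (pid x l) := by
    intro l v
    have h1 := hx l v
    rw [Finsupp.add_apply, xs_apply]
    by_cases hv : v = q
    · subst hv
      rw [Dq_apply_q hq] at h1
      rw [hq l]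
      split_ifs at h1 ⊢ with h0
      · rw [Finsupp.single_eq_same]
        omega
      · simp
    · rw [Dq_apply_ne hv] at h1
      have h2 : (if l = 0 then Finsupp.single q j else (0 : Idl K)) v = 0 := by
        split_ifs
        · exact Finsupp.single_eq_of_ne hv
        · rfl
      rw [h2]
      omega
  have h1 : tl E + j * Real.log (Nv q) = ∑ l, len (E l + if l = 0 then Finsupp.single q j else 0) := by
    have h2 : ∀ l : Fin 3, len (E l + if l = 0 then Finsupp.single q j else 0) = len (E l) +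
        if l = 0 then (j : ℝ) * Real.log (Nv q) else 0 := by
      intro l
      rw [len_add]
      split_ifs
      · rw [len_single]
      · rw [len_zero]
    simp only [h2]
    rw [Finset.sum_add_distrib]
    simp [tl]
  rw [h1]
  exact Finset.sum_le_sum fun l _ => len_mono (h l)

end Dq

/-- one more power of `v` in the ideal `l` -/
noncomputable def Dp (D : Fin 3 → Idl K) (l : Fin 3) (v : Pr K) (n : ℕ) : Fin 3 → Idl K := fun l' =>
  D l' + if l' = l then Finsupp.single v n else 0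

theorem tl_Dp (D : Fin 3 → Idl K) (l : Fin 3) (v : Pr K) (n : ℕ) :
    tl (Dp D l v n) = tl D + n * Real.log (Nv v) := by
  have h : ∀ l', len (Dp D l v n l') = len (D l') +
      if l' = l then (n : ℝ) * Real.log (Nv v) else 0 := by
    intro l'
    unfold Dp
    rw [len_add]
    split_ifs
    · rw [len_single]
    · rw [len_zero]
  unfold tl
  simp only [h]
  rw [Finset.sum_add_distrib]
  simp

theorem Dp_le {D P : Fin 3 → Idl K} {l : Fin 3} {v : Pr K} {n : ℕ} (h : ∀ l, D l ≤ P l)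
    (hv : D l v + n ≤ P l v) (l' : Fin 3) : Dp D l v n l' ≤ P l' := by
  unfold Dp
  split_ifs with hl
  · subst hl
    intro u
    rw [Finsupp.add_apply]
    by_cases hu : u = v
    · subst hu
      rw [Finsupp.single_eq_same]
      exact hv
    · rw [Finsupp.single_eq_of_ne hu, add_zero]
      exact h l' u
  · rw [add_zero]
    exact h l'

theorem exp_tl_Dp (X : ℝ) (D : Fin 3 → Idl K) (l : Fin 3) (v : Pr K) (n : ℕ) :
    Real.exp (2 * X - tl (Dp D l v n)) = Real.exp (2 * X - tl D) * ((Nv v) ^ n)⁻¹ := by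
  rw [tl_Dp, ← sub_sub, Real.exp_sub _ (n * Real.log (Nv v)), Real.exp_nat_mul,
    Real.exp_log (Nv_pos v), div_eq_mul_inv]

/-- the points with a given `E` -/
theorem per {C₁ C₄ : ℝ} (hC₁ : 0 < C₁)
    (hcell : ∀ (X : ℝ) (D : Fin 3 → Idl K) (F : Finset K), 0 ≤ X →
      (∀ x ∈ F, Pt x ∧ ht x ≤ X ∧ ∀ l, D l ≤ pid x l) →
      (F.card : ℝ) ≤ C₁ * (Real.exp (2 * X - tl D) + 1))
    (hc1 : ∀ (Y : ℝ) (s : Finset (Pr K)), 1 ≤ Y → (∀ v ∈ s, Nv v ≤ Y) → (s.card : ℝ) ≤ C₄ * Y)
    (hc2 : ∀ (V : ℝ) (s : Finset (Pr K)), 1 ≤ V → (∀ v ∈ s, V < Nv v) →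
      ∑ v ∈ s, ((Nv v) ^ 2)⁻¹ ≤ C₄ / V)
    {X V : ℝ} (hX : 0 ≤ X) (hV : 1 ≤ V) {E : Fin 3 → Idl K} {q : Pr K} {j : ℕ}
    (hqV : Nv q ≤ V) (F : Finset K)
    (hF : ∀ x ∈ F, Pt x ∧ ht x ≤ X ∧ ∀ l, Dq E q j l ≤ pid x l) :
    ∃ G ⊆ F, (∀ x ∈ G, ∀ l v, V < Nv v → pid x l v - 1 = E l v) ∧
      (F.card : ℝ) - C₁ * (Real.exp (2 * X - tl (Dq E q j)) * rsum E + om E) -
        3 * (C₁ * (Real.exp (2 * X - tl (Dq E q j)) * (C₄ / V) +
          C₄ * Real.exp ((X + cS (∅ : Finset (Pr K))) / 2))) ≤ G.card := by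
  classical
  set D := Dq E q j with hD
  set W := Real.exp (2 * X - tl D) with hW
  set G := F.filter (fun x => ∀ l v, V < Nv v → pid x l v - 1 = E l v) with hG
  set bad : Fin 3 → Pr K → ℕ → Finset K := fun l v n =>
    F.filter (fun x => ∀ l', Dp D l v n l' ≤ pid x l') with hbad
  set s : Fin 3 → Finset (Pr K) := fun l => (F.biUnion fun x => (pid x l).support).filter
    (fun v => V < Nv v ∧ 2 * Real.log (Nv v) ≤ X + cS (∅ : Finset (Pr K))) with hs
  have hbc : ∀ l v n, ((bad l v n).card : ℝ) ≤ C₁ * (W * ((Nv v) ^ n)⁻¹ + 1) := by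
    intro l v n
    have h := hcell X (Dp D l v n) (bad l v n) hX (fun x hx => by
      have hx' := Finset.mem_filter.1 hx
      exact ⟨(hF x hx'.1).1, (hF x hx'.1).2.1, hx'.2⟩)
    rwa [exp_tl_Dp] at h
  have hsub : F \ G ⊆ (Finset.univ.biUnion fun l => (E l).support.biUnion fun v => bad l v 1) ∪
      (Finset.univ.biUnion fun l => (s l).biUnion fun v => bad l v 2) := by
    intro x hx
    rw [Finset.mem_sdiff, hG, Finset.mem_filter] at hx
    obtain ⟨hxF, hx2⟩ := hx
    have hx3 : ¬ ∀ l v, V < Nv v → pid x l v - 1 = E l v := fun h => hx2 ⟨hxF, h⟩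
    push Not at hx3
    obtain ⟨l, v, hv, hne⟩ := hx3
    have hvq : v ≠ q := by
      rintro rfl
      linarith
    obtain ⟨hPt, hht, hle⟩ := hF x hxF
    have h1 := hle l v
    have h2 : D l v = E l v + min (E l v) 1 := Dq_apply_ne hvq
    rw [Finset.mem_union]
    by_cases h0 : E l v = 0
    · right
      have h3 : D l v = 0 := by rw [h2, h0]; rfl
      have h4 : 2 ≤ pid x l v := by
        rw [h0] at hne
        omega
      have h5 : (Finsupp.single v 2 : Idl K) ≤ pid x l := by
        rw [Finsupp.single_le_iff]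
        exact h4
      rw [Finset.mem_biUnion]
      refine ⟨l, Finset.mem_univ l, Finset.mem_biUnion.2 ⟨v, ?_, ?_⟩⟩
      · rw [hs, Finset.mem_filter, Finset.mem_biUnion]
        refine ⟨⟨x, hxF, ?_⟩, hv, ?_⟩
        · rw [Finsupp.mem_support_iff]
          omega
        · have h6 := len_mono h5
          rw [len_single] at h6
          have h7 := len_le hPt (pid_spec hPt) l
          push_cast at h6
          linarith
      · rw [hbad, Finset.mem_filter]
        exact ⟨hxF, Dp_le hle (by rw [h3]; omega)⟩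
    · left
      have h3 : D l v = E l v + 1 := by
        rw [h2, min_eq_right (Nat.one_le_iff_ne_zero.2 h0)]
      rw [Finset.mem_biUnion]
      refine ⟨l, Finset.mem_univ l, Finset.mem_biUnion.2 ⟨v, Finsupp.mem_support_iff.2 h0, ?_⟩⟩
      rw [hbad, Finset.mem_filter]
      exact ⟨hxF, Dp_le hle (by omega)⟩
  have hc : ((F \ G).card : ℝ) ≤ C₁ * (W * rsum E + om E) +
      3 * (C₁ * (W * (C₄ / V) + C₄ * Real.exp ((X + cS (∅ : Finset (Pr K))) / 2))) := by
    have h1 : (F \ G).card ≤ ∑ l, ∑ v ∈ (E l).support, (bad l v 1).card +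
        ∑ l, ∑ v ∈ s l, (bad l v 2).card := by
      refine (Finset.card_le_card hsub).trans ((Finset.card_union_le _ _).trans (add_le_add ?_ ?_))
      · refine Finset.card_biUnion_le.trans (Finset.sum_le_sum fun l _ => Finset.card_biUnion_le)
      · refine Finset.card_biUnion_le.trans (Finset.sum_le_sum fun l _ => Finset.card_biUnion_le)
    have h2 : ((F \ G).card : ℝ) ≤ ∑ l, ∑ v ∈ (E l).support, ((bad l v 1).card : ℝ) +
        ∑ l, ∑ v ∈ s l, ((bad l v 2).card : ℝ) := by exact_mod_cast h1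
    refine h2.trans (add_le_add ?_ ?_)
    · calc ∑ l, ∑ v ∈ (E l).support, ((bad l v 1).card : ℝ)
          ≤ ∑ l, ∑ v ∈ (E l).support, C₁ * (W * (Nv v)⁻¹ + 1) := by
            refine Finset.sum_le_sum fun l _ => Finset.sum_le_sum fun v _ => ?_
            have := hbc l v 1
            rwa [pow_one] at this
        _ = C₁ * (W * rsum E + om E) := by
            unfold rsum om
            push_cast
            rw [Finset.mul_sum, ← Finset.sum_add_distrib, Finset.mul_sum]
            refine Finset.sum_congr rfl fun l _ => ?_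
            rw [← Finset.mul_sum, Finset.sum_add_distrib, ← Finset.mul_sum]
            simp
    · have h3 : ∀ l, ∑ v ∈ s l, ((bad l v 2).card : ℝ) ≤
          C₁ * (W * (C₄ / V) + C₄ * Real.exp ((X + cS (∅ : Finset (Pr K))) / 2)) := by
        intro l
        have h4 : ∑ v ∈ s l, ((Nv v) ^ 2)⁻¹ ≤ C₄ / V :=
          hc2 V (s l) hV fun v hv => (Finset.mem_filter.1 hv).2.1
        have h5 : ((s l).card : ℝ) ≤ C₄ * Real.exp ((X + cS (∅ : Finset (Pr K))) / 2) := by
          refine hc1 _ (s l) ?_ fun v hv => ?_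
          · have := cS_nonneg (∅ : Finset (Pr K))
            exact Real.one_le_exp (by linarith)
          · have h6 := (Finset.mem_filter.1 hv).2.2
            rw [← Real.log_le_iff_le_exp (Nv_pos v)]
            linarith
        have hWpos : 0 < W := Real.exp_pos _
        calc ∑ v ∈ s l, ((bad l v 2).card : ℝ) ≤ ∑ v ∈ s l, C₁ * (W * ((Nv v) ^ 2)⁻¹ + 1) :=
              Finset.sum_le_sum fun v _ => hbc l v 2
          _ = C₁ * (W * ∑ v ∈ s l, ((Nv v) ^ 2)⁻¹ + (s l).card) := by
              rw [← Finset.mul_sum, Finset.sum_add_distrib, ← Finset.mul_sum]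
              simp
          _ ≤ _ := by gcongr
      refine (Finset.sum_le_sum fun l _ => h3 l).trans (le_of_eq ?_)
      rw [Finset.sum_const, Finset.card_univ, Fintype.card_fin, nsmul_eq_mul]
      norm_num
  refine ⟨G, Finset.filter_subset _ _, fun x hx => (Finset.mem_filter.1 hx).2, ?_⟩
  have h1 : (F.card : ℝ) = (F \ G).card + G.card := by
    have := Finset.card_sdiff_add_card_eq_card (Finset.filter_subset (fun x => ∀ l v, V < Nv v →
      pid x l v - 1 = E l v) F)
    exact_mod_cast this.symm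
  rw [h1]
  linarith

/-- a large prime -/
theorem exists_prime (h3 : S_WIN K) {t : ℝ} (ht : 0 < t) : ∃ q : Pr K, (Nv q)⁻¹ ≤ t := by
  classical
  obtain ⟨Z₀, hZ₀, h⟩ := h3 (1 / 2) 1 (by norm_num) (by norm_num) one_pos
  by_contra hno
  push Not at hno
  obtain ⟨F, hF, hs⟩ := h (max Z₀ (t⁻¹ ^ 2)) (le_max_left _ _)
  have hZ1 : 1 < max Z₀ (t⁻¹ ^ 2) := lt_max_of_lt_left hZ₀
  have hsq : t⁻¹ ≤ √(max Z₀ (t⁻¹ ^ 2)) := by
    apply Real.le_sqrt_of_sq_le
    exact le_max_right _ _
  have hzero : ∀ E ∈ F, E = 0 := by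
    intro E hE
    funext l
    ext v
    by_contra hv
    have h1 := (hF E hE).2.2.2.2 l v (Finsupp.mem_support_iff.2 hv)
    have h2 := hno v
    have h3 : Nv v < t⁻¹ := by
      rw [lt_inv_comm₀ (Nv_pos v) ht]
      exact h2
    linarith
  have h1 : ∑ E ∈ F, Real.exp (-tr E) ≤ 1 := by
    refine (Finset.sum_le_sum_of_subset_of_nonneg (t := {0}) (fun E hE => ?_)
      (fun E _ _ => (Real.exp_pos _).le)).trans ?_
    · rw [Finset.mem_singleton]
      exact hzero E hE
    · rw [Finset.sum_singleton]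
      simp [tr]
  have h2 : 1 < Real.exp ((1 - 1 / 2) * √(24 * max Z₀ (t⁻¹ ^ 2) /
      Real.log (max Z₀ (t⁻¹ ^ 2)))) := by
    rw [Real.one_lt_exp_iff]
    have h4 := Real.log_pos hZ1
    have h5 : 0 < 24 * max Z₀ (t⁻¹ ^ 2) / Real.log (max Z₀ (t⁻¹ ^ 2)) := by
      apply div_pos _ h4
      linarith
    have := Real.sqrt_pos.2 h5
    linarith
  linarith

/-- the comparison of the main terms -/
theorem cmp {κ ε ε' : ℝ} (a C₀ : ℝ) (hκ0 : 0 < κ) (hκ1 : κ < 1) (hε0 : 0 < ε) (hε1 : ε < 1)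
    (hε' : ε' ≤ ε / 4) (hε'0 : 0 < ε') : ∀ᶠ X : ℝ in atTop,
    C₀ + (1 - ε) * √(24 * κ * X / Real.log X) ≤
      (1 - ε') * √(24 * (κ * X + a) / Real.log (κ * X + a)) := by
  set M := max (2 * C₀ / ε) 1 with hM
  have hM1 : 1 ≤ M := le_max_right _ _
  have hM0 : 2 * C₀ / ε ≤ M := le_max_left _ _
  have hlog := Real.isLittleO_log_id_atTop.def (c := 24 * κ / M ^ 2) (by positivity)
  have t1 : Tendsto (fun X : ℝ => κ * X) atTop atTop := tendsto_id.const_mul_atTop hκ0
  have e1 := t1.eventually_ge_atTop (2 - a)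
  have e2 := t1.eventually_ge_atTop (4 * (-a) / ε)
  have e3 := (tendsto_id.const_mul_atTop (by linarith : (0 : ℝ) < 1 - κ)).eventually_ge_atTop a
  filter_upwards [hlog, e1, e2, e3, eventually_gt_atTop (1 : ℝ)] with X h1 h2 h3 h4 h5
  have hX0 : 0 < X := by linarith
  have hlX : 0 < Real.log X := Real.log_pos h5
  have hZ2 : 2 ≤ κ * X + a := by linarith
  have hZX : κ * X + a ≤ X := by
    have : (1 - κ) * X ≥ a := h4
    linarith
  have hlZ : 0 < Real.log (κ * X + a) := Real.log_pos (by linarith)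
  have hllZ : Real.log (κ * X + a) ≤ Real.log X := Real.log_le_log (by linarith) hZX
  have hlow : (1 - ε / 4) * (κ * X) ≤ κ * X + a := by
    rw [div_le_iff₀ hε0] at h3
    linarith
  set Y := √(24 * κ * X / Real.log X) with hY
  have hY0 : 0 ≤ Y := Real.sqrt_nonneg _
  have hYM : M ≤ Y := by
    apply Real.le_sqrt_of_sq_le
    rw [le_div_iff₀ hlX]
    rw [Real.norm_of_nonneg hlX.le, id, Real.norm_of_nonneg hX0.le] at h1
    have hM2 : 0 < M ^ 2 := by positivity
    calc M ^ 2 * Real.log X ≤ M ^ 2 * (24 * κ / M ^ 2 * X) := by gcongr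
      _ = 24 * κ * X := by field_simp
  have hmain : (1 - ε / 4) * Y ≤ √(24 * (κ * X + a) / Real.log (κ * X + a)) := by
    apply Real.le_sqrt_of_sq_le
    rw [mul_pow, hY, Real.sq_sqrt (by positivity)]
    have h6 : (1 - ε / 4) ^ 2 ≤ 1 - ε / 4 := by nlinarith
    calc (1 - ε / 4) ^ 2 * (24 * κ * X / Real.log X) ≤ (1 - ε / 4) * (24 * κ * X / Real.log X) := by
          gcongr
      _ = 24 * ((1 - ε / 4) * (κ * X)) / Real.log X := by ring
      _ ≤ 24 * (κ * X + a) / Real.log X := by gcongr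
      _ ≤ 24 * (κ * X + a) / Real.log (κ * X + a) := by
          gcongr
  have hC : C₀ ≤ ε / 2 * Y := by
    rw [div_le_iff₀ hε0] at hM0
    nlinarith
  have h7 : (1 - ε') * ((1 - ε / 4) * Y) ≤ (1 - ε') *
      √(24 * (κ * X + a) / Real.log (κ * X + a)) := by
    apply mul_le_mul_of_nonneg_left hmain
    linarith
  have h8 : (1 - ε / 2) * Y ≤ (1 - ε') * ((1 - ε / 4) * Y) := by
    rw [← mul_assoc]
    apply mul_le_mul_of_nonneg_right _ hY0
    nlinarith
  linarith

/-- The lower bound. -/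
theorem lo (K : Type) [Field K] [NumberField K] (h1 : S_CELL K) (h2 : S_LOW K) (h3 : S_WIN K)
    (h4 : S_CNT K) : S_LO K := by
  classical
  obtain ⟨C₁, hC₁, hcell⟩ := cell0 h1
  obtain ⟨c₁, c, C₂, hc₁, hc, hC₂, hlow⟩ := h2
  obtain ⟨C₄, hC₄, hc1, hc2⟩ := h4
  intro κ ε hκ0 hκ1 hε0 hε1
  obtain ⟨q, hq⟩ := exists_prime h3 (half_pos hc₁)
  have hcS := cS_nonneg (∅ : Finset (Pr K))
  have hlq := log_Nv_pos q
  set cs := cS (∅ : Finset (Pr K)) with hcs
  set lq := Real.log (Nv q) with hlqd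
  obtain ⟨ε', hε'0, hε'1, hε'2⟩ : ∃ ε' : ℝ, 0 < ε' ∧ ε' ≤ ε / 4 ∧ ε' ≤ (1 - κ) / 2 :=
    ⟨min (ε / 4) ((1 - κ) / 2), lt_min (by linarith) (by linarith), min_le_left _ _,
      min_le_right _ _⟩
  obtain ⟨cw, hcw0, hcw1, hcw2⟩ : ∃ cw : ℝ, 0 < cw ∧ cw ≤ c₁ / 2 ∧ cw ≤ c / (4 * C₁) :=
    ⟨min (c₁ / 2) (c / (4 * C₁)), lt_min (by linarith) (by positivity), min_le_left _ _,
      min_le_right _ _⟩
  obtain ⟨Z₀, hZ₀, hwin⟩ := h3 ε' cw hε'0 (by linarith) hcw0
  set a := 3 * cs - 2 * lq with ha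
  set B := 3 * cs + 2 * lq with hB
  set C₃ := C₂ + 2 * C₁ + 3 * C₁ * C₄ * Real.exp cs with hC₃
  have hC₃0 : 0 < C₃ := by positivity
  obtain ⟨V₀, hV1, hVq, hVc⟩ : ∃ V₀ : ℝ, 1 ≤ V₀ ∧ Nv q ≤ V₀ ∧ 12 * C₁ * C₄ / c ≤ V₀ :=
    ⟨max (max 1 (Nv q)) (12 * C₁ * C₄ / c), (le_max_left _ _).trans (le_max_left _ _),
      (le_max_right _ _).trans (le_max_left _ _), le_max_right _ _⟩
  have t1 : Tendsto (fun X : ℝ => κ * X) atTop atTop := tendsto_id.const_mul_atTop hκ0
  have e1 := t1.eventually_ge_atTop (Z₀ - a)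
  have e2 := t1.eventually_ge_atTop (V₀ ^ 2 - a)
  have t2 : Tendsto (fun X : ℝ => (1 - κ) * X) atTop atTop :=
    tendsto_id.const_mul_atTop (by linarith : (0 : ℝ) < 1 - κ)
  have e3 := t2.eventually_ge_atTop a
  have e4 := t2.eventually_ge_atTop (2 * (B + Real.log (4 * C₃ / c)))
  have e5 := cmp a (B - Real.log (c / 4)) hκ0 hκ1 hε0 hε1 hε'1 hε'0
  have hev := e1.and (e2.and (e3.and (e4.and (e5.and (eventually_ge_atTop (1 : ℝ))))))
  obtain ⟨X₀, hX₀⟩ := Filter.eventually_atTop.1 hev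
  refine ⟨max X₀ 2, lt_max_of_lt_right (by norm_num), fun X hX => ?_⟩
  obtain ⟨f1, f2, f3, f4, f5, f6⟩ := hX₀ X ((le_max_left _ _).trans hX)
  set Z := κ * X + a with hZ
  have hZZ : Z₀ ≤ Z := by linarith
  have hZX : Z ≤ X := by linarith
  have hVZ : V₀ ≤ √Z := by
    apply Real.le_sqrt_of_sq_le
    linarith
  obtain ⟨F, hF, hFs⟩ := hwin Z hZZ
  -- the exponents of `q`
  have hj : ∀ E : Fin 3 → Idl K, ∃ j : ℕ, E ∈ F → (κ * X + 3 * cs ≤ tl E + j * lq ∧
      tl E + j * lq ≤ κ * X + 3 * cs + lq) := by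
    intro E
    refine ⟨⌈(κ * X + 3 * cs - tl E) / lq⌉₊, fun hE => ?_⟩
    have h5 : tl E ≤ Z := (hF E hE).2.1
    have h6 : 0 ≤ (κ * X + 3 * cs - tl E) / lq := by
      apply div_nonneg _ hlq.le
      linarith
    have h7 := Nat.le_ceil ((κ * X + 3 * cs - tl E) / lq)
    have h8 := (Nat.ceil_lt_add_one h6).le
    rw [div_le_iff₀ hlq] at h7
    have h9 : (⌈(κ * X + 3 * cs - tl E) / lq⌉₊ : ℝ) * lq ≤
        ((κ * X + 3 * cs - tl E) / lq + 1) * lq := by gcongr
    rw [add_mul, one_mul, div_mul_cancel₀ _ hlq.ne'] at h9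
    constructor <;> linarith
  choose j hj using hj
  -- the points for `E`
  have hG : ∀ E : Fin 3 → Idl K, ∃ G : Finset K, E ∈ F →
      (∀ x ∈ G, Pt x ∧ ht x ≤ X ∧ tr (pid x) ≤ (3 - κ) * ht x ∧
        ∀ l v, √Z < Nv v → pid x l v - 1 = E l v) ∧
      c / 4 * Real.exp ((2 - κ) * X - B - tr E) ≤ G.card := by
    intro E
    by_cases hE : E ∈ F
    swap
    · exact ⟨∅, fun h => absurd h hE⟩
    obtain ⟨hPC, htl, htr, hrs, hsup⟩ := hF E hE
    obtain ⟨hj1, hj2⟩ := hj E hE
    have hq0 : ∀ l, E l q = 0 := by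
      intro l
      by_contra h
      have := hsup l q (Finsupp.mem_support_iff.2 h)
      linarith
    have hrD : rsum (Dq E q (j E)) ≤ c₁ := by
      have := rsum_Dq (j := j E) hq0
      linarith
    obtain ⟨FE, hFE, hFEc⟩ := hlow X (Dq E q (j E)) (by linarith) (PC_Dq hPC hq0) hrD
    have hFE' : ∀ x ∈ FE, Pt x ∧ ht x ≤ X ∧ ∀ l, Dq E q (j E) l ≤ pid x l := by
      intro x hx
      obtain ⟨g1, g2, P, hP, g3⟩ := hFE x hx
      refine ⟨g1, g2, ?_⟩
      rw [← isP_unique hP (pid_spec g1)]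
      exact g3
    obtain ⟨G, hGF, hG1, hG2⟩ := per (V := √Z) hC₁ hcell hc1 hc2 (by linarith : (0 : ℝ) ≤ X)
      (hV1.trans hVZ) (hVq.trans hVZ) FE hFE'
    refine ⟨G, fun _ => ⟨fun x hx => ?_, ?_⟩⟩
    · obtain ⟨g1, g2, g3⟩ := hFE' x (hGF hx)
      refine ⟨g1, g2, tr_le g1 g2 hκ0.le ?_, hG1 x hx⟩
      exact hj1.trans (xs_Dq hq0 g3)
    · set W := Real.exp (2 * X - tl (Dq E q (j E))) with hW
      have hW0 : 0 < W := Real.exp_pos _
      have htD : tl (Dq E q (j E)) ≤ κ * X + B + tr E := by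
        rw [tl_Dq]
        push_cast
        linarith
      have htr' : tr E ≤ ε' * X := htr.trans (by gcongr)
      have htr0 : 0 ≤ tr E := Finset.sum_nonneg fun l _ => rl_nonneg _
      -- the number of the primes
      have hom : (om E : ℝ) ≤ 2 * Real.exp X := by
        have g1 : (om E : ℝ) * Real.log 2 ≤ tr E := by
          unfold om tr
          push_cast
          rw [Finset.sum_mul]
          refine Finset.sum_le_sum fun l _ => ?_
          unfold rl
          rw [← nsmul_eq_mul, ← Finset.sum_const]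
          exact Finset.sum_le_sum fun v _ => log_two_le_log_Nv v
        have g2 : (1 : ℝ) / 2 ≤ Real.log 2 := by
          have := Real.log_two_gt_d9
          linarith
        have g3 : X ≤ Real.exp X := by
          have := Real.add_one_le_exp X
          linarith
        have g4 : (0 : ℝ) ≤ om E := Nat.cast_nonneg _
        nlinarith
      have hexp2 : Real.exp ((X + cs) / 2) ≤ Real.exp cs * Real.exp X := by
        rw [← Real.exp_add, Real.exp_le_exp]
        linarith
      have hCW : C₃ * Real.exp X ≤ c / 4 * W := by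
        have g1 : Real.exp (Real.log (4 * C₃ / c) + X) ≤ W := by
          rw [hW, Real.exp_le_exp]
          nlinarith
        rw [Real.exp_add, Real.exp_log (by positivity)] at g1
        calc C₃ * Real.exp X = c / 4 * (4 * C₃ / c * Real.exp X) := by field_simp
          _ ≤ c / 4 * W := by gcongr
      have hA1 : C₁ * (W * rsum E) ≤ c / 4 * W := by
        calc C₁ * (W * rsum E) ≤ C₁ * (W * (c / (4 * C₁))) := by
              gcongr
              exact hrs.trans hcw2
          _ = c / 4 * W := by field_simp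
      have hA2 : 3 * (C₁ * (W * (C₄ / √Z))) ≤ c / 4 * W := by
        have g1 : 0 < √Z := lt_of_lt_of_le (by linarith) hVZ
        have g2 : C₄ / √Z ≤ c / (12 * C₁) := by
          rw [div_le_div_iff₀ g1 (by positivity)]
          have g3 := hVc.trans hVZ
          rw [div_le_iff₀ hc] at g3
          linarith
        calc 3 * (C₁ * (W * (C₄ / √Z))) ≤ 3 * (C₁ * (W * (c / (12 * C₁)))) := by gcongr
          _ = c / 4 * W := by field_simp; norm_num
      have hA3 : C₂ * Real.exp X + C₁ * om E + 3 * (C₁ * (C₄ * Real.exp ((X + cs) / 2))) ≤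
          C₃ * Real.exp X := by
        have g1 : C₁ * om E ≤ C₁ * (2 * Real.exp X) := by gcongr
        have g2 : 3 * (C₁ * (C₄ * Real.exp ((X + cs) / 2))) ≤
            3 * (C₁ * (C₄ * (Real.exp cs * Real.exp X))) := by gcongr
        rw [hC₃]
        calc _ ≤ C₂ * Real.exp X + C₁ * (2 * Real.exp X) +
              3 * (C₁ * (C₄ * (Real.exp cs * Real.exp X))) := by linarith
          _ = _ := by ring
      have hGc : c / 4 * W ≤ G.card := by
        have e6 : C₁ * (W * rsum E + om E) = C₁ * (W * rsum E) + C₁ * om E := by ring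
        have e7 : 3 * (C₁ * (W * (C₄ / √Z) + C₄ * Real.exp ((X + cs) / 2))) =
            3 * (C₁ * (W * (C₄ / √Z))) + 3 * (C₁ * (C₄ * Real.exp ((X + cs) / 2))) := by ring
        rw [e6, e7] at hG2
        linarith
      refine le_trans ?_ hGc
      have g1 : Real.exp ((2 - κ) * X - B - tr E) ≤ W := by
        rw [hW, Real.exp_le_exp]
        linarith
      gcongr
  choose G hG using hG
  refine ⟨F.biUnion G, ?_, ?_⟩
  · intro x hx
    obtain ⟨E, hE, hxE⟩ := Finset.mem_biUnion.1 hx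
    obtain ⟨g1, g2, g3, -⟩ := (hG E hE).1 x hxE
    exact ⟨g1, g2, pid x, pid_spec g1, g3⟩
  · have hdisj : ∀ E ∈ F, ∀ E' ∈ F, E ≠ E' → Disjoint (G E) (G E') := by
      intro E hE E' hE' hne
      rw [Finset.disjoint_left]
      intro x hx hx'
      apply hne
      funext l
      ext v
      by_cases hv : √Z < Nv v
      · rw [← ((hG E hE).1 x hx).2.2.2 l v hv, ← ((hG E' hE').1 x hx').2.2.2 l v hv]
      · have g1 : E l v = 0 := by
          by_contra h
          exact hv ((hF E hE).2.2.2.2 l v (Finsupp.mem_support_iff.2 h))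
        have g2 : E' l v = 0 := by
          by_contra h
          exact hv ((hF E' hE').2.2.2.2 l v (Finsupp.mem_support_iff.2 h))
        rw [g1, g2]
    have hcard : ((F.biUnion G).card : ℝ) = ∑ E ∈ F, ((G E).card : ℝ) := by
      rw [Finset.card_biUnion hdisj]
      push_cast
      rfl
    rw [hcard]
    have g1 : c / 4 * Real.exp ((2 - κ) * X - B) * ∑ E ∈ F, Real.exp (-tr E) ≤
        ∑ E ∈ F, ((G E).card : ℝ) := by
      rw [Finset.mul_sum]
      refine Finset.sum_le_sum fun E hE => le_trans (le_of_eq ?_) (hG E hE).2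
      rw [mul_assoc, ← Real.exp_add]
      rfl
    refine le_trans ?_ g1
    have g2 : c / 4 * Real.exp ((2 - κ) * X - B) * Real.exp ((1 - ε') * √(24 * Z / Real.log Z)) ≤
        c / 4 * Real.exp ((2 - κ) * X - B) * ∑ E ∈ F, Real.exp (-tr E) := by gcongr
    refine le_trans ?_ g2
    have g3 : c / 4 = Real.exp (Real.log (c / 4)) := (Real.exp_log (by positivity)).symm
    rw [g3, ← Real.exp_add, ← Real.exp_add, Real.exp_le_exp]
    linarith

end Pool.Agent.N427.RS
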