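import Pool.Agent.N795.SO.Stm

/-!
# Spread-out long range stirring: the torus is homogeneous, row sums of the rates
-/

set_option autoImplicit false

namespace Pool.Agent.N795.SO

namespace A427

open Finset Equiv Filter Topology
open Pool.Agent.W805.LR (len cnt ringSum stirMass)
open Pool.Agent.TH268.PD (law)
open Pool.Agent.N795.ST (mn tr disp nrm disp_eq_zero)

section conj

variable {V : Type} [Fintype V] [DecidableEq V]

theorem ringSum_conj {J : V → V → ℝ} (τ : Perm V) (hJ : ∀ a b, J (τ a) (τ b) = J a b) (m : ℕ) :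
    ∀ g : Perm V, ringSum J m (τ * g * τ⁻¹) = ringSum J m g := by
  induction m with
  | zero =>
    intro g
    unfold ringSum
    have h : τ * g * τ⁻¹ = 1 ↔ g = 1 := conj_eq_one_iff
    by_cases hg : g = 1
    · rw [if_pos hg, if_pos (h.2 hg)]
    · rw [if_neg hg, if_neg (fun h' => hg (h.1 h'))]
  | succ m ih =>
    intro g
    show ∑ x, ∑ y, J x y / 2 * ringSum J m (swap x y * (τ * g * τ⁻¹)) =
      ∑ x, ∑ y, J x y / 2 * ringSum J m (swap x y * g)
    rw [← Equiv.sum_comp τ]
    refine Finset.sum_congr rfl fun x _ => ?_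
    rw [← Equiv.sum_comp τ]
    refine Finset.sum_congr rfl fun y _ => ?_
    rw [hJ, ← ih (swap x y * g)]
    congr 2
    have h1 : swap (τ x) (τ y) = τ * swap x y * τ⁻¹ := by
      rw [Equiv.swap_apply_apply]
    rw [h1]
    group

theorem law_conj {J : V → V → ℝ} (τ : Perm V) (hJ : ∀ a b, J (τ a) (τ b) = J a b) (t : ℝ)
    (g : Perm V) : law J t (τ * g * τ⁻¹) = law J t g := by
  unfold law stirMass
  simp only [ringSum_conj τ hJ]

theorem len_conj (τ : Perm V) (g : Perm V) (x : V) : len (τ * g * τ⁻¹) (τ x) = len g x := by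
  classical
  unfold len cnt
  rw [← Equiv.sum_comp τ]
  refine Finset.sum_congr rfl fun w _ => ?_
  have h : (τ * g * τ⁻¹).SameCycle (τ x) (τ w) ↔ g.SameCycle x w := by
    rw [Equiv.Perm.sameCycle_conj]
    simp
  by_cases hw : g.SameCycle x w
  · rw [if_pos hw, if_pos (h.2 hw)]
  · rw [if_neg hw, if_neg (fun h' => hw (h.1 h'))]

theorem mn_conj {J : V → V → ℝ} (τ : Perm V) (hJ : ∀ a b, J (τ a) (τ b) = J a b) (t : ℝ)
    (φ : ℝ → ℝ) (x : V) : mn J t (fun g => φ (len g (τ x))) = mn J t (fun g => φ (len g x)) := by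
  unfold mn
  rw [← Equiv.sum_comp (MulAut.conj τ).toEquiv]
  refine Finset.sum_congr rfl fun g _ => ?_
  show law J t (τ * g * τ⁻¹) * φ (len (τ * g * τ⁻¹) (τ x)) = law J t g * φ (len g x)
  rw [law_conj τ hJ, len_conj]

end conj

theorem tr_add {d M : ℕ} (J : (Fin d → ℤ) → ℝ) (a b c : Fin d → ZMod M) :
    tr J (a + c) (b + c) = tr J a b := by
  classical
  have h1 : ∀ a b : Fin d → ZMod M, disp (a + c) (b + c) = disp a b := by
    intro a b
    unfold disp
    funext i
    rw [Pi.add_apply, Pi.add_apply, add_sub_add_right_eq_sub]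
  unfold tr
  rw [h1, h1]
  by_cases h : a = b
  · rw [if_pos h, if_pos (by rw [h])]
  · rw [if_neg h, if_neg (fun h' => h (add_right_cancel h'))]

/-- the box of the representatives -/
noncomputable def box (d n : ℕ) : Finset (Fin d → ℤ) :=
  Fintype.piFinset fun _ : Fin d => (Finset.Ioc (-(n : ℤ)) n).filter fun a => -(n : ℤ) < a * 2 ∧ a * 2 ≤ n

theorem mem_box {d n : ℕ} (z : Fin d → ℤ) : z ∈ box d n ↔ ∀ i, -(n : ℤ) < z i * 2 ∧ z i * 2 ≤ n := by
  unfold box
  rw [Fintype.mem_piFinset]
  refine forall_congr' fun i => ?_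
  rw [Finset.mem_filter, Finset.mem_Ioc]
  constructor
  · exact fun h => h.2
  · intro h
    refine ⟨⟨?_, ?_⟩, h⟩
    · rcases le_or_gt 0 (z i) with h1 | h1 <;> omega
    · rcases le_or_gt 0 (z i) with h1 | h1 <;> omega

theorem image_right {d n : ℕ} [NeZero n] (x : Fin d → ZMod n) :
    (univ.image fun y : Fin d → ZMod n => disp x y) = box d n := by
  classical
  ext z
  rw [Finset.mem_image, mem_box]
  constructor
  · rintro ⟨y, _, rfl⟩ i
    have := (x i - y i).valMinAbs_mem_Ioc
    exact ⟨this.1, this.2⟩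
  · intro h
    refine ⟨fun i => x i - (z i : ZMod n), Finset.mem_univ _, ?_⟩
    funext i
    show (x i - (x i - (z i : ZMod n))).valMinAbs = z i
    rw [sub_sub_cancel, ZMod.valMinAbs_spec]
    exact ⟨rfl, (h i).1, (h i).2⟩

theorem image_left {d n : ℕ} [NeZero n] (x : Fin d → ZMod n) :
    (univ.image fun y : Fin d → ZMod n => disp y x) = box d n := by
  classical
  ext z
  rw [Finset.mem_image, mem_box]
  constructor
  · rintro ⟨y, _, rfl⟩ i
    have := (y i - x i).valMinAbs_mem_Ioc
    exact ⟨this.1, this.2⟩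
  · intro h
    refine ⟨fun i => x i + (z i : ZMod n), Finset.mem_univ _, ?_⟩
    funext i
    show ((x i + (z i : ZMod n)) - x i).valMinAbs = z i
    rw [add_sub_cancel_left, ZMod.valMinAbs_spec]
    exact ⟨rfl, (h i).1, (h i).2⟩

theorem inj_right {d M : ℕ} (x : Fin d → ZMod M) :
    Function.Injective fun y : Fin d → ZMod M => disp x y := by
  intro y y' h
  funext i
  have h1 := congrFun h i
  simp only [disp] at h1
  have h2 := ZMod.injective_valMinAbs h1
  exact sub_right_injective h2

theorem inj_left {d M : ℕ} (x : Fin d → ZMod M) :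
    Function.Injective fun y : Fin d → ZMod M => disp y x := by
  intro y y' h
  funext i
  have h1 := congrFun h i
  simp only [disp] at h1
  have h2 := ZMod.injective_valMinAbs h1
  exact sub_left_injective h2

theorem row_eq {d n : ℕ} [NeZero n] (J : (Fin d → ℤ) → ℝ) (x : Fin d → ZMod n) :
    ∑ y, tr J x y = ∑ z ∈ (box d n).filter (fun z => z ≠ 0), J z := by
  classical
  obtain ⟨f, hf⟩ : ∃ f : (Fin d → ℤ) → ℝ, ∀ z, f z = if z = 0 then 0 else J z := ⟨_, fun z => rfl⟩
  have h1 : ∀ y, tr J x y = (f (disp x y) + f (disp y x)) / 2 := by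
    intro y
    unfold tr
    rw [hf, hf]
    by_cases h : x = y
    · rw [if_pos h, if_pos ((disp_eq_zero x y).2 h), if_pos ((disp_eq_zero y x).2 h.symm)]
      norm_num
    · rw [if_neg h, if_neg (fun h' => h ((disp_eq_zero x y).1 h')),
        if_neg (fun h' => h ((disp_eq_zero y x).1 h').symm)]
  have h2 : ∑ y, f (disp x y) = ∑ z ∈ box d n, f z := by
    rw [← image_right x, Finset.sum_image fun y _ y' _ h => inj_right x h]
  have h3 : ∑ y, f (disp y x) = ∑ z ∈ box d n, f z := by
    rw [← image_left x, Finset.sum_image fun y _ y' _ h => inj_left x h]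
  rw [Finset.sum_congr rfl fun y _ => h1 y, ← Finset.sum_div, Finset.sum_add_distrib, h2, h3,
    Finset.sum_filter, add_self_div_two]
  refine Finset.sum_congr rfl fun z _ => ?_
  rw [hf]
  by_cases h : z = 0
  · rw [if_pos h, if_neg (fun h' => h' h)]
  · rw [if_neg h, if_pos h]

theorem box_tendsto (d : ℕ) : Tendsto (fun n : ℕ => (box d n).subtype (fun z => z ≠ 0)) atTop atTop := by
  refine tendsto_atTop_finset_of_monotone ?_ ?_
  · intro m n hmn z hz
    rw [Finset.mem_subtype, mem_box] at hz ⊢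
    intro i
    have h1 := hz i
    have h2 : (m : ℤ) ≤ n := by exact_mod_cast hmn
    omega
  · intro z
    obtain ⟨n, hn⟩ : ∃ n : ℕ, ∀ i, 2 * (z.1 i).natAbs < n := by
      refine ⟨univ.sup (fun i => 2 * (z.1 i).natAbs) + 1, fun i => ?_⟩
      exact Nat.lt_succ_of_le (Finset.le_sup (f := fun i => 2 * (z.1 i).natAbs) (Finset.mem_univ i))
    refine ⟨n, ?_⟩
    rw [Finset.mem_subtype, mem_box]
    intro i
    have := hn i
    omega

end A427

open Finset Filter Topology in
open Pool.Agent.N795.ST (tr) in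
/-- all points of the torus are equivalent -/
theorem trans : Trans := by
  intro d M _ J t φ x y
  have h1 := A427.mn_conj (J := (tr J : (Fin d → ZMod M) → (Fin d → ZMod M) → ℝ))
    (Equiv.addRight (y - x)) (fun a b => A427.tr_add J a b (y - x)) t φ x
  have h2 : (Equiv.addRight (y - x)) x = y := by
    show x + (y - x) = y
    abel
  rw [h2] at h1
  exact h1.symm

open Finset Filter Topology in
open Pool.Agent.N795.ST (tr) in
/-- the row sums of the rates -/
theorem row : Row := by
  classical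
  intro d J S _ hJ hS
  have hnn : ∀ z : {z : Fin d → ℤ // z ≠ 0}, 0 ≤ J z := fun z => hJ z z.2
  have e : ∀ n : ℕ, ∑ z ∈ (A427.box d n).subtype (fun z => z ≠ 0), J z =
      ∑ z ∈ (A427.box d n).filter (fun z => z ≠ 0), J z := fun n =>
    Finset.sum_subtype_eq_sum_filter _
  refine ⟨fun n => ∑ z ∈ (A427.box d n).filter (fun z => z ≠ 0), J z, ?_, ?_, ?_⟩
  · have h1 := Tendsto.comp hS (A427.box_tendsto d)
    refine h1.congr fun n => ?_
    exact e n
  · intro n
    refine ⟨?_, ?_⟩
    · show 0 ≤ ∑ z ∈ (A427.box d n).filter (fun z => z ≠ 0), J z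
      rw [← e n]
      exact Finset.sum_nonneg fun z _ => hnn z
    · show ∑ z ∈ (A427.box d n).filter (fun z => z ≠ 0), J z ≤ S
      rw [← e n]
      exact sum_le_hasSum _ (fun z _ => hnn z) hS
  · intro n _ x
    exact A427.row_eq J x

end Pool.Agent.N795.SO
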